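import Mathlib

/-!
Definitions for multiarrangements, logarithmic derivations and universal derivations.
-/

open Module

namespace Pool.Agent.Lib.MP_63137b_co

/-- The polynomial ring `S = Sym(V*)` of a vector space `V`. -/
abbrev Poly (K : Type*) [Field K] (V : Type*) [AddCommGroup V] [Module K V] :=
  SymmetricAlgebra K (Dual K V)

/-- The linear form `α ∈ V*`, viewed as an element of `S = Sym(V*)`. -/
noncomputable abbrev frm {K : Type*} [Field K] {V : Type*} [AddCommGroup V] [Module K V]
    (α : Dual K V) : Poly K V := SymmetricAlgebra.ι K (Dual K V) α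

/-- Homogeneous elements of degree `d` of `Sym(M)`: the `d`-th power of the space `M`. -/
def homog (K : Type*) [Field K] (M : Type*) [AddCommGroup M] [Module K M] (d : ℕ) :
    Submodule K (SymmetricAlgebra K M) :=
  (LinearMap.range (SymmetricAlgebra.ι K M)) ^ d

variable {K : Type*} [Field K] {V : Type*} [AddCommGroup V] [Module K V]

/-- `Der_S`, the `K`-derivations of `S = Sym(V*)`. -/
abbrev Der (K : Type*) [Field K] (V : Type*) [AddCommGroup V] [Module K V] :=
  Derivation K (Poly K V) (Poly K V)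

/-- The set `D(A, m)` of logarithmic derivations of the multiarrangement `(A, m)`, where `A` is
a set of hyperplanes of `V`: all derivations `θ` such that `α ^ m(H)` divides `θ(α)` for every
`H ∈ A` and every linear form `α` with kernel `H`. -/
def logDer (A : Set (Submodule K V)) (m : Submodule K V → ℕ) : Set (Der K V) :=
  {θ | ∀ α : Dual K V, LinearMap.ker α ∈ A → frm α ^ m (LinearMap.ker α) ∣ θ (frm α)}

/-- `IsNabla φ θ ψ` says `ψ = ∇_φ θ`: on every linear form `α` the derivation `ψ` takes the value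
`φ (θ α)`. (In coordinates, if `θ = ∑ f_i ∂_i` then `ψ = ∑ φ(f_i) ∂_i`.) -/
def IsNabla (φ θ ψ : Der K V) : Prop :=
  ∀ α : Dual K V, ψ (frm α) = φ (θ (frm α))

/-- `θ` is a universal derivation for `(A, μ)`: it is homogeneous, lies in `D(A, μ)`, and
`φ ↦ ∇_φ θ` is a bijection (hence an isomorphism of `S`-modules) from `Der_S` onto
`D(A, μ - 1)`. -/
def IsUniversalDer (A : Set (Submodule K V)) (μ : Submodule K V → ℕ) (θ : Der K V) : Prop :=
  (∃ n : ℕ, ∀ α : Dual K V, θ (frm α) ∈ homog K (Dual K V) n) ∧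
  θ ∈ logDer A μ ∧
  (∀ φ : Der K V, ∃ ψ ∈ logDer A (fun H => μ H - 1), IsNabla φ θ ψ) ∧
  (∀ ψ ∈ logDer A (fun H => μ H - 1), ∃! φ : Der K V, IsNabla φ θ ψ)

/-- The intersection lattice: `X ∈ L(A)` iff `X` is an intersection of members of `A`. -/
def InLattice (A : Set (Submodule K V)) (X : Submodule K V) : Prop :=
  ∃ B ⊆ A, X = sInf B

/-- The localization `A_X` as an arrangement in `V / X`: the hyperplanes `H / X` with
`X ⊆ H ∈ A`. -/
def locArr (A : Set (Submodule K V)) (X : Submodule K V) : Set (Submodule K (V ⧸ X)) :=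
  {H' | H'.comap X.mkQ ∈ A}

/-- The multiplicity on `A_X`: the multiplicity of `H / X` is that of `H`. -/
def locMult (μ : Submodule K V → ℕ) (X : Submodule K V) : Submodule K (V ⧸ X) → ℕ :=
  fun H' => μ (H'.comap X.mkQ)

/-- An arrangement `A` in `V` is irreducible if it is not a product: whenever `V = V₁ ⊕ V₂` and
every hyperplane of `A` contains `V₁` or `V₂`, one of `V₁`, `V₂` is zero. -/
def IsIrreducibleArr (A : Set (Submodule K V)) : Prop :=
  ∀ V₁ V₂ : Submodule K V, IsCompl V₁ V₂ → (∀ H ∈ A, V₁ ≤ H ∨ V₂ ≤ H) → V₁ = ⊥ ∨ V₂ = ⊥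

end Pool.Agent.Lib.MP_63137b_co
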