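import Mathlib
import Pool.Agent.Lib.MP_63137b_co.Defs

/-!
Basic facts on the symmetric algebra of a vector space: derivations with prescribed values,
homogeneous components, directional derivatives, Euler's formula.
-/

open Module Polynomial

namespace Pool.Agent.Lib.MP_63137b_co

section Sym
variable {K : Type*} [Field K] {M : Type*} [AddCommGroup M] [Module K M]

theorem sym_derivation_ext {N : Type*} [AddCommGroup N] [Module K N] [Module (SymmetricAlgebra K M) N]
    {D E : Derivation K (SymmetricAlgebra K M) N}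
    (h : ∀ a : M, D (SymmetricAlgebra.ι K M a) = E (SymmetricAlgebra.ι K M a)) : D = E := by
  ext x
  induction x using SymmetricAlgebra.induction with
  | algebraMap r => simp
  | ι x => exact h x
  | mul a b ha hb => simp [ha, hb]
  | add a b ha hb => simp [ha, hb]

/-- auxiliary algebra map `S → S[t]`, `a ↦ a + t f(a)`. -/
noncomputable def mkDerAux (f : M →ₗ[K] SymmetricAlgebra K M) :
    SymmetricAlgebra K M →ₐ[K] (SymmetricAlgebra K M)[X] :=
  SymmetricAlgebra.lift
    ((Polynomial.CAlgHom (R := K)).toLinearMap ∘ₗ SymmetricAlgebra.ι K M +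
      (LinearMap.mulLeft K (X : (SymmetricAlgebra K M)[X])) ∘ₗ
        (Polynomial.CAlgHom (R := K)).toLinearMap ∘ₗ f)

theorem mkDerAux_ι (f : M →ₗ[K] SymmetricAlgebra K M) (a : M) :
    mkDerAux f (SymmetricAlgebra.ι K M a) = C (SymmetricAlgebra.ι K M a) + X * C (f a) := by
  simp [mkDerAux]

theorem mkDerAux_coeff_zero (f : M →ₗ[K] SymmetricAlgebra K M) (x : SymmetricAlgebra K M) :
    (mkDerAux f x).coeff 0 = x := by
  induction x using SymmetricAlgebra.induction with
  | algebraMap r => simp [Polynomial.algebraMap_apply]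
  | ι x => simp [mkDerAux_ι]
  | mul a b ha hb => simp [ha, hb, Polynomial.mul_coeff_zero]
  | add a b ha hb => simp [ha, hb]

/-- The derivation of `Sym(M)` with prescribed values on `M`. -/
noncomputable def mkDer (f : M →ₗ[K] SymmetricAlgebra K M) :
    Derivation K (SymmetricAlgebra K M) (SymmetricAlgebra K M) :=
  Derivation.mk' ((Polynomial.lcoeff (SymmetricAlgebra K M) 1).restrictScalars K ∘ₗ
      (mkDerAux f).toLinearMap) (by
    intro a b
    simp only [LinearMap.coe_comp, Function.comp_apply, AlgHom.toLinearMap_apply, map_mul,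
      LinearMap.coe_restrictScalars, Polynomial.lcoeff_apply, Polynomial.mul_coeff_one,
      mkDerAux_coeff_zero, smul_eq_mul]
    ring)

@[simp] theorem mkDer_ι (f : M →ₗ[K] SymmetricAlgebra K M) (a : M) :
    mkDer f (SymmetricAlgebra.ι K M a) = f a := by
  simp [mkDer, mkDerAux_ι, Polynomial.coeff_C]

/-- scaling map `a ↦ t a`. -/
noncomputable def scal : SymmetricAlgebra K M →ₐ[K] (SymmetricAlgebra K M)[X] :=
  SymmetricAlgebra.lift ((LinearMap.mulLeft K (X : (SymmetricAlgebra K M)[X])) ∘ₗ
        (Polynomial.CAlgHom (R := K)).toLinearMap ∘ₗ SymmetricAlgebra.ι K M)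

@[simp] theorem scal_ι (a : M) :
    scal (SymmetricAlgebra.ι K M a) = X * C (SymmetricAlgebra.ι K M a) := by
  simp [scal]

theorem scal_eval_one (x : SymmetricAlgebra K M) : (scal x).eval 1 = x := by
  induction x using SymmetricAlgebra.induction with
  | algebraMap r => simp [Polynomial.algebraMap_apply]
  | ι x => simp
  | mul a b ha hb => simp [ha, hb]
  | add a b ha hb => simp [ha, hb]

/-- homogeneous component. -/
noncomputable def hc (k : ℕ) : SymmetricAlgebra K M →ₗ[K] SymmetricAlgebra K M :=
  (Polynomial.lcoeff (SymmetricAlgebra K M) k).restrictScalars K ∘ₗ scal.toLinearMap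

theorem hc_apply (k : ℕ) (x : SymmetricAlgebra K M) : hc k x = (scal x).coeff k := rfl

theorem hc_mul (k : ℕ) (x y : SymmetricAlgebra K M) :
    hc k (x * y) = ∑ p ∈ Finset.HasAntidiagonal.antidiagonal k, hc p.1 x * hc p.2 y := by
  simp [hc_apply, Polynomial.coeff_mul]

theorem scal_of_mem {d : ℕ} {x : SymmetricAlgebra K M} (hx : x ∈ homog K M d) :
    scal x = X ^ d * C x := by
  unfold homog at hx
  induction d generalizing x with
  | zero =>
    rw [pow_zero, Submodule.mem_one] at hx
    obtain ⟨r, rfl⟩ := hx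
    simp [Polynomial.algebraMap_apply]
  | succ d ih =>
    rw [pow_succ] at hx
    induction hx using Submodule.mul_induction_on' with
    | mem_mul_mem a ha b hb =>
      obtain ⟨b, rfl⟩ := hb
      rw [map_mul, ih ha, scal_ι, C_mul]; ring
    | add a _ b _ ha hb => rw [map_add, ha, hb, C_add]; ring

theorem hc_of_mem {d : ℕ} {x : SymmetricAlgebra K M} (hx : x ∈ homog K M d) (k : ℕ) :
    hc k x = if k = d then x else 0 := by
  rw [hc_apply, scal_of_mem hx, mul_comm, Polynomial.coeff_C_mul_X_pow]

theorem homog_mul {a b : ℕ} {x y : SymmetricAlgebra K M} (hx : x ∈ homog K M a)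
    (hy : y ∈ homog K M b) : x * y ∈ homog K M (a + b) := by
  unfold homog at *; rw [pow_add]; exact Submodule.mul_mem_mul hx hy

theorem algebraMap_mem_homog (r : K) : algebraMap K (SymmetricAlgebra K M) r ∈ homog K M 0 := by
  unfold homog; rw [pow_zero]; exact Submodule.algebraMap_mem r

theorem ι_mem_homog (a : M) : SymmetricAlgebra.ι K M a ∈ homog K M 1 := by
  unfold homog; rw [pow_one]; exact ⟨a, rfl⟩

theorem ι_pow_mem_homog (a : M) (n : ℕ) : SymmetricAlgebra.ι K M a ^ n ∈ homog K M n := by
  unfold homog; exact Submodule.pow_mem_pow _ (LinearMap.mem_range_self _ a) n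

theorem hc_mem (k : ℕ) (x : SymmetricAlgebra K M) : hc k x ∈ homog K M k := by
  induction x using SymmetricAlgebra.induction generalizing k with
  | algebraMap r =>
    rw [hc_of_mem (algebraMap_mem_homog r)]
    split_ifs with h
    · subst h; exact algebraMap_mem_homog r
    · exact Submodule.zero_mem _
  | ι x =>
    rw [hc_of_mem (ι_mem_homog x)]
    split_ifs with h
    · subst h; exact ι_mem_homog x
    · exact Submodule.zero_mem _
  | mul a b ha hb =>
    rw [hc_mul]
    refine Submodule.sum_mem _ fun p hp => ?_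
    rw [Finset.HasAntidiagonal.mem_antidiagonal] at hp
    rw [← hp]
    exact homog_mul (ha _) (hb _)
  | add a b ha hb =>
    rw [map_add]; exact Submodule.add_mem _ (ha _) (hb _)

theorem sum_hc (x : SymmetricAlgebra K M) : ∃ N, ∀ n, N ≤ n → ∑ k ∈ Finset.range n, hc k x = x := by
  refine ⟨(scal x).natDegree + 1, fun n hn => ?_⟩
  conv_rhs => rw [← scal_eval_one x, Polynomial.eval_eq_sum_range' (lt_of_lt_of_le (Nat.lt_succ_self _) hn)]
  simp [hc_apply]

theorem eq_of_hc {x y : SymmetricAlgebra K M} (h : ∀ k, hc k x = hc k y) : x = y := by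
  obtain ⟨N, hN⟩ := sum_hc x
  obtain ⟨N', hN'⟩ := sum_hc y
  rw [← hN (max N N') (le_max_left _ _), ← hN' (max N N') (le_max_right _ _)]
  exact Finset.sum_congr rfl fun k _ => h k

theorem hc_hc (k l : ℕ) (x : SymmetricAlgebra K M) : hc k (hc l x) = if k = l then hc l x else 0 :=
  hc_of_mem (hc_mem l x) k

theorem hc_mul_of_mem {d : ℕ} {x : SymmetricAlgebra K M} (hx : x ∈ homog K M d) (k : ℕ)
    (y : SymmetricAlgebra K M) : hc (d + k) (x * y) = x * hc k y := by
  rw [hc_apply, map_mul, scal_of_mem hx, mul_comm (X^d) (C x), mul_assoc, Polynomial.coeff_C_mul, add_comm d k,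
    Polynomial.coeff_X_pow_mul, hc_apply]

theorem hc_mul_of_mem_lt {d : ℕ} {x : SymmetricAlgebra K M} (hx : x ∈ homog K M d) (k : ℕ) (hk : k < d)
    (y : SymmetricAlgebra K M) : hc k (x * y) = 0 := by
  rw [hc_apply, map_mul, scal_of_mem hx, mul_comm (X^d) (C x), mul_assoc, Polynomial.coeff_C_mul,
    Polynomial.coeff_X_pow_mul', if_neg (not_le.mpr hk), mul_zero]

/-- divisibility by a homogeneous element passes to homogeneous components -/
theorem dvd_hc {d : ℕ} {x : SymmetricAlgebra K M} (hx : x ∈ homog K M d) {y : SymmetricAlgebra K M}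
    (h : x ∣ y) (k : ℕ) : x ∣ hc k y := by
  obtain ⟨z, rfl⟩ := h
  rcases lt_or_ge k d with hk | hk
  · rw [hc_mul_of_mem_lt hx k hk]; exact dvd_zero _
  · obtain ⟨j, rfl⟩ := Nat.exists_eq_add_of_le hk
    rw [hc_mul_of_mem hx]; exact dvd_mul_right _ _

theorem hc_zero_eq (x : SymmetricAlgebra K M) :
    hc 0 x = algebraMap K _ (SymmetricAlgebra.algebraMapInv x) := by
  induction x using SymmetricAlgebra.induction with
  | algebraMap r =>
    rw [hc_of_mem (algebraMap_mem_homog r), if_pos rfl, SymmetricAlgebra.algebraMap_leftInverse]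
  | ι x =>
    rw [hc_of_mem (ι_mem_homog x), if_neg (by norm_num), SymmetricAlgebra.algebraMapInv_ι, map_zero]
  | mul a b ha hb => simp [hc_mul, ha, hb]
  | add a b ha hb => rw [map_add, ha, hb]; simp

/-- the ideal of elements without constant term -/
noncomputable def irr (K : Type*) [Field K] (M : Type*) [AddCommGroup M] [Module K M] :
    Ideal (SymmetricAlgebra K M) :=
  RingHom.ker (SymmetricAlgebra.algebraMapInv (R := K) (M := M))

theorem mem_irr {x : SymmetricAlgebra K M} : x ∈ irr K M ↔ hc 0 x = 0 := by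
  rw [hc_zero_eq, irr, RingHom.mem_ker, SymmetricAlgebra.algebraMap_eq_zero_iff]

theorem ι_mem_irr (a : M) : SymmetricAlgebra.ι K M a ∈ irr K M := by
  rw [mem_irr, hc_of_mem (ι_mem_homog a)]; simp

theorem sub_const_mem_irr (x : SymmetricAlgebra K M) :
    x - algebraMap K _ (SymmetricAlgebra.algebraMapInv x) ∈ irr K M := by
  rw [mem_irr, map_sub, hc_of_mem (algebraMap_mem_homog _), if_pos rfl, hc_zero_eq, sub_self]

theorem homog_zero_eq {x : SymmetricAlgebra K M} (hx : x ∈ homog K M 0) :
    ∃ r : K, x = algebraMap K _ r := by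
  unfold homog at hx; rw [pow_zero, Submodule.mem_one] at hx
  obtain ⟨r, hr⟩ := hx; exact ⟨r, hr.symm⟩

end Sym

section Poly
variable {K : Type*} [Field K] {W : Type*} [AddCommGroup W] [Module K W]

/-- directional derivative -/
noncomputable def pd (w : W) : Derivation K (Poly K W) (Poly K W) :=
  mkDer ((Algebra.linearMap K (Poly K W)) ∘ₗ (Dual.eval K W w))

@[simp] theorem pd_frm (w : W) (β : Dual K W) : pd w (frm β) = algebraMap K (Poly K W) (β w) := by
  simp [pd, frm]

theorem der_sum_apply {ι' : Type*} (s : Finset ι') (D : ι' → Derivation K (Poly K W) (Poly K W))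
    (x : Poly K W) : (∑ i ∈ s, D i) x = ∑ i ∈ s, D i x := by
  induction s using Finset.cons_induction with
  | empty => simp
  | cons a s ha ih => simp [Finset.sum_cons, ih]

theorem pd_add (w w' : W) : pd (K := K) (w + w') = pd w + pd w' :=
  sym_derivation_ext fun β => by
    have h1 := pd_frm (K := K) (w + w') β
    have h2 := pd_frm (K := K) w β
    have h3 := pd_frm (K := K) w' β
    unfold frm at h1 h2 h3
    rw [h1, Derivation.add_apply, h2, h3, map_add, map_add]

theorem pd_smul (c : K) (w : W) : pd (K := K) (c • w) = c • pd w :=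
  sym_derivation_ext fun β => by
    have h1 := pd_frm (K := K) (c • w) β
    have h2 := pd_frm (K := K) w β
    unfold frm at h1 h2
    rw [h1, Derivation.smul_apply, h2, map_smul, smul_eq_mul, map_mul, Algebra.smul_def]

/-- `pd` as a linear map in the direction. -/
noncomputable def pdL : W →ₗ[K] Derivation K (Poly K W) (Poly K W) where
  toFun := pd
  map_add' := pd_add
  map_smul' := pd_smul

theorem pdL_apply (w : W) : pdL (K := K) w = pd w := rfl

theorem pd_homog {d : ℕ} {x : Poly K W} (hx : x ∈ homog K (Dual K W) (d + 1)) (w : W) :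
    pd w x ∈ homog K (Dual K W) d := by
  induction d generalizing x with
  | zero =>
    unfold homog at hx
    rw [zero_add, pow_one] at hx
    obtain ⟨β, rfl⟩ := hx
    have := pd_frm (K := K) w β
    unfold frm at this; rw [this]
    exact algebraMap_mem_homog _
  | succ d ih =>
    unfold homog at hx
    rw [pow_succ] at hx
    induction hx using Submodule.mul_induction_on' with
    | mem_mul_mem a ha b hb =>
      obtain ⟨β, rfl⟩ := hb
      have := pd_frm (K := K) w β
      unfold frm at this
      rw [Derivation.leibniz, this]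
      refine Submodule.add_mem _ ?_ ?_
      · simpa using homog_mul ha (algebraMap_mem_homog (K := K) (M := Dual K W) (β w))
      · rw [smul_eq_mul, add_comm d 1]
        exact homog_mul (ι_mem_homog β) (ih ha)
    | add a _ b _ ha hb => rw [map_add]; exact Submodule.add_mem _ ha hb

theorem pd_homog_zero {x : Poly K W} (hx : x ∈ homog K (Dual K W) 0) (w : W) : pd w x = 0 := by
  obtain ⟨r, rfl⟩ := homog_zero_eq hx
  simp

theorem hc_pd (k : ℕ) (w : W) (x : Poly K W) : hc k (pd w x) = pd w (hc (k + 1) x) := by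
  obtain ⟨N, hN⟩ := sum_hc x
  have h1 : x = ∑ j ∈ Finset.range (N + (k + 2)), hc j x := (hN _ (by omega)).symm
  conv_lhs => rw [h1]
  rw [map_sum, map_sum, Finset.sum_eq_single (k + 1)]
  · rw [hc_of_mem (pd_homog (hc_mem _ x) w), if_pos rfl]
  · intro j _ hj
    cases j with
    | zero => rw [pd_homog_zero (hc_mem _ x), map_zero]
    | succ j => rw [hc_of_mem (pd_homog (hc_mem _ x) w), if_neg (by omega)]
  · intro h; exact absurd (Finset.mem_range.mpr (by omega)) h

/-- expansion of a derivation in a basis -/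
theorem der_expand {κ : Type*} [Fintype κ] (b : Basis κ K W)
    (φ : Derivation K (Poly K W) (Poly K W)) :
    φ = ∑ i, φ (frm (b.coord i)) • pd (b i) := by
  refine sym_derivation_ext fun β => ?_
  have hβ : β = ∑ i, β (b i) • b.coord i := by
    refine b.ext fun j => ?_
    simp
  have h2 : ∀ i, pd (b i) (SymmetricAlgebra.ι K (Dual K W) β) =
    algebraMap K (Poly K W) (β (b i)) := fun i => pd_frm (b i) β
  rw [der_sum_apply]
  simp only [Derivation.smul_apply, h2]
  conv_lhs => rw [hβ]
  rw [map_sum, map_sum]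
  refine Finset.sum_congr rfl fun i _ => ?_
  rw [map_smul, Derivation.map_smul, Algebra.smul_def, smul_eq_mul, mul_comm]

theorem euler_homog {d : ℕ} {x : SymmetricAlgebra K (Dual K W)} (hx : x ∈ homog K (Dual K W) d) :
    mkDer (SymmetricAlgebra.ι K (Dual K W)) x = (d : K) • x := by
  unfold homog at hx
  induction d generalizing x with
  | zero =>
    rw [pow_zero, Submodule.mem_one] at hx
    obtain ⟨r, rfl⟩ := hx
    simp
  | succ d ih =>
    rw [pow_succ] at hx
    induction hx using Submodule.mul_induction_on' with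
    | mem_mul_mem a ha b hb =>
      obtain ⟨β, rfl⟩ := hb
      rw [Derivation.leibniz, mkDer_ι, ih ha, smul_eq_mul, smul_eq_mul, mul_smul_comm, mul_comm _ a,
        Nat.cast_succ, add_smul, one_smul, add_comm]
    | add a _ b _ ha hb => rw [map_add, ha, hb, smul_add]

theorem euler_pd {κ : Type*} [Fintype κ] (b : Basis κ K W) {d : ℕ} {x : Poly K W}
    (hx : x ∈ homog K (Dual K W) d) :
    ∑ i, frm (b.coord i) * pd (b i) x = (d : K) • x := by
  rw [← euler_homog hx, der_expand b (mkDer (SymmetricAlgebra.ι K (Dual K W)))]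
  simp [der_sum_apply, frm]

end Poly

end Pool.Agent.Lib.MP_63137b_co
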