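import Mathlib
import Pool.Agent.Lib.MP_63137b_co.Sym

/-!
The local-to-graded argument: a graded module of polynomial vector fields that is, up to the
maximal ideal of the origin, spanned by the derivatives of one vector field, is generated by the
derivatives of the lowest homogeneous component of that field, unless those are dependent.
-/

open Module

namespace Pool.Agent.Lib.MP_63137b_co

variable {K : Type*} [Field K] {W : Type*} [AddCommGroup W] [Module K W]

/-- polynomial vector fields on `W`, given by their values on linear forms -/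
abbrev VF (K : Type*) [Field K] (W : Type*) [AddCommGroup W] [Module K W] :=
  Dual K W →ₗ[K] Poly K W

/-- homogeneous component of a vector field -/
noncomputable def hcV (k : ℕ) : VF K W →ₗ[K] VF K W :=
  LinearMap.compRight K (hc k)

theorem hcV_apply (k : ℕ) (f : VF K W) (β : Dual K W) : hcV k f β = hc k (f β) := rfl

/-- directional derivative of a vector field -/
noncomputable def dV (w : W) : VF K W →ₗ[K] VF K W :=
  LinearMap.compRight K (pd w).toLinearMap

theorem dV_apply (w : W) (f : VF K W) (β : Dual K W) : dV w f β = pd w (f β) := rfl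

theorem dV_add (w w' : W) (f : VF K W) : dV (w + w') f = dV w f + dV w' f := by
  ext β; simp [dV_apply, pd_add]

theorem dV_smul (c : K) (w : W) (f : VF K W) : dV (c • w) f = c • dV w f := by
  ext β; simp [dV_apply, pd_smul]

theorem dV_zero (f : VF K W) : dV (0 : W) f = 0 := by
  have := dV_smul (0 : K) (0 : W) f
  simpa using this

theorem dV_sub (w w' : W) (f : VF K W) : dV (w - w') f = dV w f - dV w' f := by
  have h := dV_add (w - w') w' f
  rw [sub_add_cancel] at h
  rw [h, add_sub_cancel_right]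

theorem hcV_dV (k : ℕ) (w : W) (f : VF K W) : hcV k (dV w f) = dV w (hcV (k + 1) f) := by
  ext β; simp only [hcV_apply, dV_apply]; exact hc_pd k w (f β)

theorem hcV_smul (k : ℕ) (g : Poly K W) (f : VF K W) :
    hcV k (g • f) = ∑ p ∈ Finset.HasAntidiagonal.antidiagonal k, hc p.1 g • hcV p.2 f := by
  ext β
  simp only [hcV_apply, LinearMap.smul_apply, smul_eq_mul, hc_mul, LinearMap.sum_apply]

theorem hcV_hcV (k l : ℕ) (f : VF K W) : hcV k (hcV l f) = if k = l then hcV l f else 0 := by
  ext β
  simp only [hcV_apply, hc_hc]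
  split_ifs <;> simp [hcV_apply]

theorem eq_of_hcV {f g : VF K W} (h : ∀ k, hcV k f = hcV k g) : f = g := by
  ext β
  exact eq_of_hc fun k => by rw [← hcV_apply, ← hcV_apply, h]

theorem euler_VF {κ : Type*} [Fintype κ] (b : Basis κ K W) (k : ℕ) (f : VF K W) :
    ∑ i, frm (b.coord i) • dV (b i) (hcV k f) = (k : K) • hcV k f := by
  ext β
  simp only [LinearMap.sum_apply, LinearMap.smul_apply, smul_eq_mul, dV_apply, hcV_apply]
  exact euler_pd b (hc_mem k (f β))

section FD
variable [FiniteDimensional K W]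

theorem sum_hcV (f : VF K W) : ∃ N, ∑ k ∈ Finset.range N, hcV k f = f := by
  classical
  let b := Module.finBasis K (Dual K W)
  have h : ∀ i, ∃ N, ∀ n, N ≤ n → ∑ k ∈ Finset.range n, hc k (f (b i)) = f (b i) :=
    fun i => sum_hc _
  choose N hN using h
  refine ⟨Finset.univ.sup N, b.ext fun i => ?_⟩
  rw [LinearMap.sum_apply]
  exact hN i _ (Finset.le_sup (Finset.mem_univ i))

theorem mem_of_hcV {P : Submodule (Poly K W) (VF K W)} {f : VF K W} (h : ∀ k, hcV k f ∈ P) :
    f ∈ P := by
  obtain ⟨N, hN⟩ := sum_hcV f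
  rw [← hN]
  exact Submodule.sum_mem _ fun k _ => h k

/-- scalar multiplication by constants stays in a `Poly`-submodule -/
theorem smul_mem_K {P : Submodule (Poly K W) (VF K W)} {f : VF K W} (c : K) (h : f ∈ P) :
    c • f ∈ P := by
  have : c • f = algebraMap K (Poly K W) c • f := by
    ext β; simp [Algebra.smul_def]
  rw [this]; exact P.smul_mem _ h

variable [CharZero K]

theorem hcV_eq_zero_of_dV {k : ℕ} {f : VF K W} (h : ∀ w, dV w (hcV (k + 1) f) = 0) :
    hcV (k + 1) f = 0 := by
  have := euler_VF (Module.finBasis K W) (k + 1) f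
  simp only [h, smul_zero, Finset.sum_const_zero] at this
  have h2 : ((k + 1 : ℕ) : K) ≠ 0 := Nat.cast_ne_zero.mpr (Nat.succ_ne_zero k)
  exact (smul_eq_zero.mp this.symm).resolve_left h2

/-- The data of the local argument. -/
structure LocalData (K : Type*) [Field K] (W : Type*) [AddCommGroup W] [Module K W] where
  M : Submodule (Poly K W) (VF K W)
  M' : Submodule (Poly K W) (VF K W)
  th : VF K W
  q0 : K
  Q : Poly K W
  hM : ∀ f ∈ M, ∀ k, hcV k f ∈ M
  hM' : ∀ f ∈ M', ∀ k, hcV k f ∈ M'
  hd : ∀ f ∈ M', ∀ w, dV w f ∈ M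
  h0 : ∀ f ∈ M', hcV 0 f = 0
  hth : th ∈ M'
  hq0 : q0 ≠ 0
  hq : ∀ ψ ∈ M, ∃ w, q0 • ψ - dV w th ∈ irr K (Dual K W) • M
  hQ0 : Q ≠ 0
  hQ : ∀ f : VF K W, Q • f ∈ M

namespace LocalData

theorem irr_smul_hcV {M : Submodule (Poly K W) (VF K W)} {d : ℕ}
    (hlow : ∀ k < d, ∀ ψ ∈ M, hcV k ψ = 0) {ξ : VF K W}
    (hξ : ξ ∈ irr K (Dual K W) • M) : hcV d ξ = 0 := by
  induction hξ using Submodule.smul_induction_on' with
  | smul g hg ψ hψ =>
    rw [hcV_smul]
    refine Finset.sum_eq_zero fun p hp => ?_
    rw [Finset.HasAntidiagonal.mem_antidiagonal] at hp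
    rcases Nat.eq_zero_or_pos p.1 with h | h
    · rw [h, mem_irr.mp hg, zero_smul]
    · rw [hlow p.2 (by omega) ψ hψ, smul_zero]
  | add x hx y hy ihx ihy => rw [map_add, ihx, ihy, add_zero]

variable (D : LocalData K W)

theorem M'_le_irr {ζ : VF K W} (hζ : ζ ∈ D.M') : ζ ∈ irr K (Dual K W) • D.M := by
  refine mem_of_hcV fun k => ?_
  cases k with
  | zero => rw [D.h0 ζ hζ]; exact Submodule.zero_mem _
  | succ k =>
    have h1 := euler_VF (Module.finBasis K W) (k + 1) ζ
    have h2 : ((k + 1 : ℕ) : K) ≠ 0 := Nat.cast_ne_zero.mpr (Nat.succ_ne_zero k)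
    have h3 : hcV (k + 1) ζ = ((k + 1 : ℕ) : K)⁻¹ • (∑ i, frm ((Module.finBasis K W).coord i) •
        dV ((Module.finBasis K W) i) (hcV (k + 1) ζ)) := by
      rw [h1, smul_smul, inv_mul_cancel₀ h2, one_smul]
    rw [h3]
    refine smul_mem_K _ (Submodule.sum_mem _ fun i _ => ?_)
    exact Submodule.smul_mem_smul (ι_mem_irr _) (D.hd _ (D.hM' _ hζ _) _)

theorem exists_d [Nontrivial W] : ∃ d, (∃ ψ ∈ D.M, hcV d ψ ≠ 0) := by
  by_contra hcon
  push Not at hcon
  have hM0 : ∀ ψ ∈ D.M, ψ = 0 := fun ψ hψ => eq_of_hcV fun k => by rw [hcon k ψ hψ, map_zero]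
  have b := Module.finBasis K (Dual K W)
  obtain ⟨β, hβ⟩ := exists_ne (0 : Dual K W)
  obtain ⟨w, hw⟩ : ∃ w, β w ≠ 0 := by
    by_contra h; push Not at h; exact hβ (LinearMap.ext fun w => h w)
  have h1 := hM0 _ (D.hQ ((Algebra.linearMap K (Poly K W)) ∘ₗ (Dual.eval K W w)))
  have h2 := LinearMap.congr_fun h1 β
  simp only [LinearMap.smul_apply, LinearMap.coe_comp, Function.comp_apply, Dual.eval_apply,
    Algebra.linearMap_apply, smul_eq_mul, LinearMap.zero_apply, mul_eq_zero, D.hQ0, false_or,
    SymmetricAlgebra.algebraMap_eq_zero_iff] at h2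
  exact hw h2

/-- The minimal degree. -/
noncomputable def d [Nontrivial W] : ℕ := by
  classical exact Nat.find D.exists_d

theorem d_spec [Nontrivial W] : ∃ ψ ∈ D.M, hcV D.d ψ ≠ 0 := by
  classical
  have := Nat.find_spec D.exists_d
  unfold d
  convert this

theorem d_min [Nontrivial W] : ∀ k < D.d, ∀ ψ ∈ D.M, hcV k ψ = 0 := by
  classical
  intro k hk ψ hψ
  unfold d at hk
  have hk' : k < Nat.find D.exists_d := by convert hk
  have := Nat.find_min D.exists_d hk'
  push Not at this
  exact this ψ hψ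

/-- The lowest component. -/
noncomputable def eta [Nontrivial W] : VF K W := hcV (D.d + 1) D.th

variable [Nontrivial W]

theorem eta_mem : D.eta ∈ D.M' := D.hM' _ D.hth _

theorem low' {ξ : VF K W} (hξ : ξ ∈ D.M') {k : ℕ} (hk : k ≤ D.d) : hcV k ξ = 0 := by
  cases k with
  | zero => exact D.h0 ξ hξ
  | succ k =>
    refine hcV_eq_zero_of_dV fun w => ?_
    rw [← hcV_dV]
    exact D.d_min k (by omega) _ (D.hd _ hξ w)

theorem hcV_eta : hcV (D.d + 1) D.eta = D.eta := by
  unfold eta; rw [hcV_hcV, if_pos rfl]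

theorem hcV_dV_th (w : W) : hcV D.d (dV w D.th) = dV w D.eta := hcV_dV _ _ _

theorem hcV_dV_eta (w : W) : hcV D.d (dV w D.eta) = dV w D.eta := by
  rw [hcV_dV, hcV_eta]

theorem irr_d {ξ : VF K W} (hξ : ξ ∈ irr K (Dual K W) • D.M) : hcV D.d ξ = 0 :=
  irr_smul_hcV D.d_min hξ

theorem exists_dir {ψ : VF K W} (hψ : ψ ∈ D.M) : ∃ w, D.q0 • hcV D.d ψ = dV w D.eta := by
  obtain ⟨w, hw⟩ := D.hq ψ hψ
  refine ⟨w, ?_⟩
  have := D.irr_d hw
  rw [map_sub, map_smul, hcV_dV_th, sub_eq_zero] at this
  exact this

theorem step1 (u : W) : ∃ k : W, dV k D.eta = 0 ∧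
    dV u D.th - dV u D.eta - dV k D.th ∈ irr K (Dual K W) • D.M := by
  have hu : dV u D.eta ∈ D.M := D.hd _ D.eta_mem u
  obtain ⟨w, hw⟩ := D.hq _ hu
  have h1 := D.irr_d hw
  rw [map_sub, map_smul, hcV_dV_th, hcV_dV_eta, sub_eq_zero] at h1
  refine ⟨(-D.q0⁻¹) • (w - D.q0 • u), ?_, ?_⟩
  · rw [dV_smul, dV_sub, dV_smul, h1, sub_self, smul_zero]
  · have h2 := smul_mem_K (-D.q0⁻¹) hw
    convert h2 using 1
    rw [dV_smul, dV_sub, dV_smul, smul_sub, smul_sub, smul_smul, smul_smul]
    have := D.hq0
    have e1 : -D.q0⁻¹ * D.q0 = -1 := by field_simp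
    rw [e1]
    simp only [neg_smul, one_smul]
    abel

theorem step2 {ψ : VF K W} (hψ : ψ ∈ D.M) : ∃ u k : W, dV k D.eta = 0 ∧
    ψ - dV u D.eta - dV k D.th ∈ irr K (Dual K W) • D.M := by
  obtain ⟨w, hw⟩ := D.hq ψ hψ
  obtain ⟨k, hk0, hk⟩ := D.step1 w
  refine ⟨D.q0⁻¹ • w, D.q0⁻¹ • k, by rw [dV_smul, hk0, smul_zero], ?_⟩
  have h1 := smul_mem_K (D.q0⁻¹) (Submodule.add_mem _ hw hk)
  convert h1 using 1
  rw [dV_smul, dV_smul, smul_add, smul_sub, smul_sub, smul_sub, smul_smul,
    inv_mul_cancel₀ D.hq0, one_smul]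
  abel

/-- kernel of `w ↦ ∂_w η` -/
noncomputable def K0 : Submodule K W where
  carrier := {w | dV w D.eta = 0}
  add_mem' := by
    intro a b ha hb
    simp only [Set.mem_ofPred_eq] at *
    rw [dV_add, ha, hb, add_zero]
  zero_mem' := dV_zero _
  smul_mem' := by
    intro c x hx
    simp only [Set.mem_ofPred_eq] at *
    rw [dV_smul, hx, smul_zero]

theorem mem_K0 {w : W} : w ∈ D.K0 ↔ dV w D.eta = 0 := Iff.rfl

theorem K0_ne_top : D.K0 ≠ ⊤ := by
  intro h
  have h1 : D.eta = 0 := by
    have : hcV (D.d + 1) D.th = 0 := hcV_eq_zero_of_dV fun w => by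
      have : w ∈ D.K0 := by rw [h]; trivial
      exact D.mem_K0.mp this
    exact this
  obtain ⟨ψ, hψ, hne⟩ := D.d_spec
  obtain ⟨w, hw⟩ := D.exists_dir hψ
  rw [h1, map_zero] at hw
  exact hne ((smul_eq_zero.mp hw).resolve_left D.hq0)

/-- generation -/
theorem generate (hK : D.K0 = ⊥) {ψ : VF K W} (hψ : ψ ∈ D.M) :
    ψ ∈ Submodule.span (Poly K W) (Set.range fun w => dV w D.eta) := by
  have key : ∀ k, ∀ ψ ∈ D.M,
      hcV k ψ ∈ Submodule.span (Poly K W) (Set.range fun w => dV w D.eta) := by
    intro k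
    induction k using Nat.strong_induction_on with
    | _ k ih =>
      intro ψ hψ
      obtain ⟨u, k', hk', hmem⟩ := D.step2 hψ
      have : k' = 0 := by
        have : k' ∈ D.K0 := hk'
        rw [hK] at this; exact this
      subst this
      rw [dV_zero, sub_zero] at hmem
      have h1 : hcV k ψ = hcV k (dV u D.eta) + hcV k (ψ - dV u D.eta) := by
        rw [← map_add]; congr 1; abel
      rw [h1]
      refine Submodule.add_mem _ ?_ ?_
      · have : hcV k (dV u D.eta) = if k = D.d then dV u D.eta else 0 := by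
          conv_lhs => rw [← D.hcV_dV_eta u]
          rw [hcV_hcV, hcV_dV_eta]
        rw [this]
        split_ifs
        · exact Submodule.subset_span ⟨u, rfl⟩
        · exact Submodule.zero_mem _
      · generalize ψ - dV u D.eta = ξ at hmem
        induction hmem using Submodule.smul_induction_on' with
        | smul g hg ψ hψ =>
          rw [hcV_smul]
          refine Submodule.sum_mem _ fun p hp => ?_
          rw [Finset.HasAntidiagonal.mem_antidiagonal] at hp
          rcases Nat.eq_zero_or_pos p.1 with h | h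
          · rw [h, mem_irr.mp hg, zero_smul]; exact Submodule.zero_mem _
          · exact Submodule.smul_mem _ _ (ih p.2 (by omega) ψ hψ)
        | add x hx y hy ihx ihy => rw [map_add]; exact Submodule.add_mem _ ihx ihy
  exact mem_of_hcV fun k => key k ψ hψ

/-- constant vector field -/
noncomputable def cst (w : W) : VF K W := (Algebra.linearMap K (Poly K W)) ∘ₗ (Dual.eval K W w)

omit [FiniteDimensional K W] [CharZero K] [Nontrivial W] in
theorem cst_apply (w : W) (β : Dual K W) : cst w β = algebraMap K (Poly K W) (β w) := rfl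

/-- uniqueness of coefficients -/
theorem independent (hK : D.K0 = ⊥) {κ : Type*} [Fintype κ] [DecidableEq κ] (b : Basis κ K W)
    (c : κ → Poly K W) (hc : ∑ i, c i • dV (b i) D.eta = 0) : c = 0 := by
  have hspan : ∀ ψ ∈ D.M, ∃ a : κ → Poly K W, ψ = ∑ i, a i • dV (b i) D.eta := by
    intro ψ hψ
    have h1 := D.generate hK hψ
    have h2 : Submodule.span (Poly K W) (Set.range fun w => dV w D.eta) ≤
        Submodule.span (Poly K W) (Set.range fun i => dV (b i) D.eta) := by
      rw [Submodule.span_le]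
      rintro _ ⟨w, rfl⟩
      simp only
      have h3 : dV w D.eta = ∑ i, b.repr w i • dV (b i) D.eta := by
        have h4 : ∀ (s : Finset κ) (a : κ → K), dV (∑ i ∈ s, a i • b i) D.eta =
            ∑ i ∈ s, a i • dV (b i) D.eta := by
          intro s a
          induction s using Finset.induction_on with
          | empty => simp [dV_zero]
          | insert x s hx ih => rw [Finset.sum_insert hx, Finset.sum_insert hx, dV_add, dV_smul, ih]
        conv_lhs => rw [← b.sum_repr w]
        exact h4 _ _
      rw [h3]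
      exact Submodule.sum_mem _ fun i _ => smul_mem_K _ (Submodule.subset_span ⟨i, rfl⟩)
    have h3 := h2 h1
    rw [Submodule.mem_span_range_iff_exists_fun] at h3
    obtain ⟨a, ha⟩ := h3
    exact ⟨a, ha.symm⟩
  choose B hB using fun j => hspan _ (D.hQ (cst (b j)))
  let J : Matrix κ κ (Poly K W) := Matrix.of fun i l => dV (b i) D.eta (b.coord l)
  have hBJ : Matrix.of B * J = Matrix.scalar κ D.Q := by
    ext j l
    have h1 := LinearMap.congr_fun (hB j) (b.coord l)
    rw [LinearMap.smul_apply, LinearMap.sum_apply] at h1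
    rw [Matrix.mul_apply]
    simp only [Matrix.of_apply, J]
    simp only [LinearMap.smul_apply, smul_eq_mul] at h1
    rw [← h1, cst_apply, Matrix.scalar_apply, Matrix.diagonal_apply]
    simp only [Basis.coord_apply, Basis.repr_self, Finsupp.single_apply]
    split_ifs <;> simp
  have hdet : J.det ≠ 0 := by
    intro h
    have := congrArg Matrix.det hBJ
    rw [Matrix.det_mul, h, mul_zero, Matrix.scalar_apply, Matrix.det_diagonal,
      Finset.prod_const] at this
    exact pow_ne_zero _ D.hQ0 this.symm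
  refine Matrix.eq_zero_of_vecMul_eq_zero hdet ?_
  ext l
  have h1 := LinearMap.congr_fun hc (b.coord l)
  rw [LinearMap.sum_apply] at h1
  simp only [LinearMap.smul_apply, smul_eq_mul, LinearMap.zero_apply] at h1
  simp only [Matrix.vecMul, dotProduct, J, Matrix.of_apply, Pi.zero_apply]
  exact h1

/-- the dimension bound -/
theorem finrank_le (N : Submodule K (Dual K W)) (hN : ∀ β ∈ N, D.eta β = 0) :
    Module.finrank K N ≤ Module.finrank K D.K0 := by
  classical
  let T := Poly K W
  -- restriction of vector fields to `N`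
  let R : VF K W →ₗ[T] (N →ₗ[K] T) :=
    { toFun := fun f => f ∘ₗ N.subtype
      map_add' := fun f g => by ext; simp
      map_smul' := fun c f => by ext; simp }
  have hR : ∀ (f : VF K W) (β : N), R f β = f β := fun f β => rfl
  let b := Module.finBasis K D.K0
  let ξ : Fin (Module.finrank K D.K0) → (N →ₗ[K] T) := fun i => R (dV (b i : W) D.th)
  let N0 : Submodule T (N →ₗ[K] T) := Submodule.span T (Set.range ξ)
  have hmem : ∀ k ∈ D.K0, R (dV k D.th) ∈ N0 := by
    intro k hk
    have h4 : ∀ (s : Finset (Fin (Module.finrank K D.K0))) (a : Fin (Module.finrank K D.K0) → K),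
        dV (∑ i ∈ s, a i • (b i : W)) D.th = ∑ i ∈ s, a i • dV (b i : W) D.th := by
      intro s a
      induction s using Finset.induction_on with
      | empty => simp [dV_zero]
      | insert x s hx ih => rw [Finset.sum_insert hx, Finset.sum_insert hx, dV_add, dV_smul, ih]
    have h5 : k = ∑ i, (b.repr ⟨k, hk⟩ i) • (b i : W) := by
      have h6 : ((∑ i, (b.repr ⟨k, hk⟩ i) • b i : D.K0) : W) =
          ∑ i, (b.repr ⟨k, hk⟩ i) • (b i : W) := by
        rw [Submodule.coe_sum]; rfl
      rw [← h6, b.sum_repr]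
    rw [h5, h4, map_sum]
    refine Submodule.sum_mem _ fun i _ => ?_
    have h6 : (b.repr ⟨k, hk⟩ i) • dV (b i : W) D.th =
        algebraMap K T (b.repr ⟨k, hk⟩ i) • dV (b i : W) D.th := by
      ext β; simp [Algebra.smul_def, T]
    rw [h6, map_smul]
    exact Submodule.smul_mem _ _ (Submodule.subset_span ⟨i, rfl⟩)
  have : IsNoetherianRing T := by
    let e := SymmetricAlgebra.equivMvPolynomial (Module.finBasis K (Dual K W))
    exact isNoetherianRing_of_ringEquiv _ e.symm.toRingEquiv
  have : Module.Finite T (VF K W) := by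
    let bD := Module.finBasis K (Dual K W)
    let e : VF K W →ₗ[T] (Fin (Module.finrank K (Dual K W)) → T) :=
      { toFun := fun f i => f (bD i)
        map_add' := fun f g => by ext; simp
        map_smul' := fun c f => by ext; simp }
    exact Module.Finite.of_injective e (by
      intro f g hfg
      exact bD.ext fun i => congrFun hfg i)
  have hfg : D.M.FG := IsNoetherian.noetherian _
  have hsub : D.M.map R ≤ N0 ⊔ irr K (Dual K W) • D.M.map R := by
    rintro _ ⟨ψ, hψ, rfl⟩
    obtain ⟨u, k, hk, hmem'⟩ := D.step2 hψ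
    have h1 : R ψ = R (dV k D.th) + R (ψ - dV u D.eta - dV k D.th) := by
      rw [map_sub, map_sub]
      have : R (dV u D.eta) = 0 := by
        ext β
        rw [hR, dV_apply, hN β β.2, map_zero]; rfl
      rw [this]; abel
    rw [h1]
    refine Submodule.add_mem_sup (hmem k hk) ?_
    rw [← Submodule.map_smul'']
    exact Submodule.mem_map_of_mem hmem'
  obtain ⟨f, hf1, hf⟩ := Submodule.exists_sub_one_mem_and_smul_le_of_fg_of_le_sup (I := irr K (Dual K W))
    (N := N0) (N' := D.M.map R) (P := D.M.map R) (hfg.map R) le_rfl hsub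
  have hf0 : f ≠ 0 := by
    rintro rfl
    rw [mem_irr, map_sub, map_zero, zero_sub, neg_eq_zero] at hf1
    have : (1 : Poly K W) = algebraMap K _ 1 := by simp
    rw [this, hc_of_mem (algebraMap_mem_homog _), if_pos rfl] at hf1
    simp at hf1
  -- dual basis of N
  have hfree : Module.Free K N := Module.Free.of_divisionRing K N
  let β := Module.finBasis K N
  have hext : ∀ g : N →ₗ[K] T, ∃ G : VF K W, R G = g := by
    intro g
    obtain ⟨G, hG⟩ := LinearMap.exists_extend g
    exact ⟨G, hG⟩
  have hall : ∀ g : N →ₗ[K] T, ∃ c : Fin (Module.finrank K D.K0) → T, (f * D.Q) • g = ∑ i, c i • ξ i := by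
    intro g
    obtain ⟨G, hG⟩ := hext g
    have h1 : f • R (D.Q • G) ∈ N0 := by
      have := hf
      exact this (Submodule.smul_mem_pointwise_smul _ _ _ (Submodule.mem_map_of_mem (D.hQ G)))
    rw [map_smul, hG, smul_smul] at h1
    rw [Submodule.mem_span_range_iff_exists_fun] at h1
    obtain ⟨c, hc⟩ := h1
    exact ⟨c, hc.symm⟩
  let e' : Fin (Module.finrank K N) → (N →ₗ[K] T) := fun j =>
    (Algebra.linearMap K T) ∘ₗ (β.coord j)
  choose C hC using fun j => hall (e' j)
  let F : (Fin (Module.finrank K N) → T) →ₗ[T] (Fin (Module.finrank K D.K0) → T) :=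
    { toFun := fun x i => ∑ j, x j * C j i
      map_add' := fun x y => by ext i; simp [add_mul, Finset.sum_add_distrib]
      map_smul' := fun c x => by
        ext i
        simp only [Pi.smul_apply, smul_eq_mul, RingHom.id_apply, mul_assoc]
        exact (Finset.mul_sum _ _ _).symm }
  have hinj : Function.Injective F := by
    rw [injective_iff_map_eq_zero]
    intro x hx
    have h1 : ∑ j, x j • ((f * D.Q) • e' j) = 0 := by
      simp only [hC]
      simp only [Finset.smul_sum]
      rw [Finset.sum_comm]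
      refine Finset.sum_eq_zero fun i _ => ?_
      have := congrFun hx i
      simp only [F, LinearMap.coe_mk, AddHom.coe_mk, Pi.zero_apply] at this
      simp only [smul_smul]
      rw [← Finset.sum_smul, this, zero_smul]
    ext l
    have h2 := LinearMap.congr_fun h1 (β l)
    rw [LinearMap.sum_apply] at h2
    simp only [LinearMap.smul_apply, e', LinearMap.coe_comp, Function.comp_apply, Basis.coord_apply,
      Basis.repr_self, Algebra.linearMap_apply, smul_eq_mul, LinearMap.zero_apply] at h2
    rw [Finset.sum_eq_single l] at h2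
    · simp only [Finsupp.single_eq_same, map_one, mul_one, mul_eq_zero] at h2
      rcases h2 with h2 | h2 | h2
      · exact h2
      · exact absurd h2 hf0
      · exact absurd h2 D.hQ0
    · intro j _ hj
      rw [Finsupp.single_eq_of_ne hj]; simp
    · intro h; exact absurd (Finset.mem_univ _) h
  have := card_le_of_injective T F hinj
  simpa using this

end LocalData
end FD
end Pool.Agent.Lib.MP_63137b_co
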