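import Mathlib
import Pool.Agent.Lib.MP_63137b_co.Defs
import Pool.Agent.Lib.MP_63137b_co.Local

open Module

namespace Pool.Agent.Lib.MP_63137b_co

section General
variable {K : Type*} [Field K] {V : Type*} [AddCommGroup V] [Module K V]

/-- vector-field version of `logDer` -/
def logVF (A : Set (Submodule K V)) (m : Submodule K V → ℕ) : Submodule (Poly K V) (VF K V) where
  carrier := {f | ∀ α : Dual K V, LinearMap.ker α ∈ A → frm α ^ m (LinearMap.ker α) ∣ f α}
  add_mem' := fun hf hg α hα => dvd_add (hf α hα) (hg α hα)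
  zero_mem' := fun _ _ => dvd_zero _
  smul_mem' := fun c _ hf α hα => (hf α hα).mul_left c

theorem mem_logVF {A : Set (Submodule K V)} {m : Submodule K V → ℕ} {f : VF K V} :
    f ∈ logVF A m ↔ ∀ α : Dual K V, LinearMap.ker α ∈ A →
      frm α ^ m (LinearMap.ker α) ∣ f α := Iff.rfl

/-- the vector field of a derivation -/
noncomputable def toVF (θ : Der K V) : VF K V := θ.toLinearMap ∘ₗ SymmetricAlgebra.ι K (Dual K V)

theorem toVF_apply (θ : Der K V) (α : Dual K V) : toVF θ α = θ (frm α) := rfl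

theorem mkDer_frm (f : VF K V) (α : Dual K V) : mkDer f (frm α) = f α := mkDer_ι f α

theorem mem_logDer_iff {A : Set (Submodule K V)} {m : Submodule K V → ℕ} {θ : Der K V} :
    θ ∈ logDer A m ↔ toVF θ ∈ logVF A m := Iff.rfl

theorem der_ext {D E : Der K V} (h : ∀ α : Dual K V, D (frm α) = E (frm α)) : D = E :=
  sym_derivation_ext h

theorem logVF_hcV {A : Set (Submodule K V)} {m : Submodule K V → ℕ} {f : VF K V}
    (hf : f ∈ logVF A m) (k : ℕ) : hcV k f ∈ logVF A m := fun α hα => by
  rw [hcV_apply]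
  exact dvd_hc (ι_pow_mem_homog α _) (hf α hα) k

theorem pd_pow_dvd {α : Dual K V} {n : ℕ} {g : Poly K V} (h : frm α ^ n ∣ g) (w : V) :
    frm α ^ (n - 1) ∣ pd w g := by
  obtain ⟨z, rfl⟩ := h
  cases n with
  | zero => simp
  | succ n =>
    rw [Derivation.leibniz, Derivation.leibniz_pow, Nat.add_sub_cancel]
    refine dvd_add ?_ ?_
    · exact Dvd.intro (frm α * pd w z) (by rw [smul_eq_mul, pow_succ]; ring)
    · rw [smul_eq_mul, smul_eq_mul, nsmul_eq_mul]
      exact Dvd.intro (z * ((n + 1 : ℕ) : Poly K V) * pd w (frm α)) (by ring)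

theorem logVF_dV {A : Set (Submodule K V)} {μ : Submodule K V → ℕ} {f : VF K V}
    (hf : f ∈ logVF A μ) (w : V) : dV w f ∈ logVF A (fun H => μ H - 1) := fun α hα =>
  pd_pow_dvd (hf α hα) w

/-- a coatom is the kernel of a linear form -/
theorem exists_form {H : Submodule K V} (hH : IsCoatom H) :
    ∃ α : Dual K V, LinearMap.ker α = H := by
  obtain ⟨f, hf, hle⟩ := Submodule.exists_le_ker_of_lt_top H (lt_top_iff_ne_top.mpr hH.1)
  refine ⟨f, ?_⟩
  rcases (hH.le_iff.mp hle) with h | h
  · exact absurd (LinearMap.ker_eq_top.mp h) hf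
  · exact h

theorem form_unique {α β : Dual K V} (hα : α ≠ 0) (h : LinearMap.ker α = LinearMap.ker β) :
    ∃ c : K, c ≠ 0 ∧ β = c • α := by
  obtain ⟨v, hv⟩ : ∃ v, α v ≠ 0 := by
    by_contra hc
    push Not at hc
    exact hα (LinearMap.ext hc)
  have hv' : β v ≠ 0 := by
    intro h0
    have : v ∈ LinearMap.ker α := by rw [h]; exact h0
    exact hv this
  refine ⟨β v / α v, div_ne_zero hv' hv, ?_⟩
  ext x
  have hx : x - (α x / α v) • v ∈ LinearMap.ker α := by
    rw [LinearMap.mem_ker, map_sub, map_smul, smul_eq_mul, div_mul_cancel₀ _ hv, sub_self]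
  rw [h, LinearMap.mem_ker, map_sub, map_smul, smul_eq_mul, sub_eq_zero] at hx
  rw [hx, LinearMap.smul_apply, smul_eq_mul]
  ring

theorem frm_smul (c : K) (α : Dual K V) :
    (frm (c • α) : Poly K V) = algebraMap K (Poly K V) c * frm α := by
  rw [frm, map_smul, Algebra.smul_def]

theorem frm_ne_zero [FiniteDimensional K V] {α : Dual K V} (hα : α ≠ 0) :
    (frm α : Poly K V) ≠ 0 := by
  intro h
  obtain ⟨v, hv⟩ : ∃ v, α v ≠ 0 := by
    by_contra hc
    push Not at hc
    exact hα (LinearMap.ext hc)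
  have := pd_frm v α
  rw [h, map_zero] at this
  exact hv ((SymmetricAlgebra.algebraMap_eq_zero_iff _ _).mp this.symm)

theorem irr_le {W : Type*} [AddCommGroup W] [Module K W] [FiniteDimensional K W] [CharZero K]
    {M M' : Submodule (Poly K W) (VF K W)}
    (hM' : ∀ f ∈ M', ∀ k, hcV k f ∈ M') (hd : ∀ f ∈ M', ∀ w, dV w f ∈ M)
    (h0 : ∀ f ∈ M', hcV 0 f = 0) {ζ : VF K W} (hζ : ζ ∈ M') : ζ ∈ irr K (Dual K W) • M := by
  refine mem_of_hcV fun k => ?_
  cases k with
  | zero => rw [h0 ζ hζ]; exact Submodule.zero_mem _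
  | succ k =>
    have h1 := euler_VF (Module.finBasis K W) (k + 1) ζ
    have h2 : ((k + 1 : ℕ) : K) ≠ 0 := Nat.cast_ne_zero.mpr (Nat.succ_ne_zero k)
    have h3 : hcV (k + 1) ζ = ((k + 1 : ℕ) : K)⁻¹ • (∑ i, frm ((Module.finBasis K W).coord i) •
        dV ((Module.finBasis K W) i) (hcV (k + 1) ζ)) := by
      rw [h1, smul_smul, inv_mul_cancel₀ h2, one_smul]
    rw [h3]
    refine smul_mem_K _ (Submodule.sum_mem _ fun i _ => ?_)
    exact Submodule.smul_mem_smul (ι_mem_irr _) (hd _ (hM' _ hζ _) _)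

/-- linear forms with kernels in `A` span the dual if `⋂ A = 0` -/
theorem span_forms [FiniteDimensional K V] {A : Set (Submodule K V)}
    (hA : ∀ H ∈ A, ∃ α : Dual K V, LinearMap.ker α = H) (hinf : sInf A = ⊥) :
    Submodule.span K {α : Dual K V | LinearMap.ker α ∈ A} = ⊤ := by
  set N := Submodule.span K {α : Dual K V | LinearMap.ker α ∈ A} with hN
  have h1 : N.dualCoannihilator = ⊥ := by
    rw [eq_bot_iff, ← hinf]
    intro v hv
    rw [Submodule.mem_sInf]
    intro H hH
    obtain ⟨α, rfl⟩ := hA H hH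
    rw [LinearMap.mem_ker]
    exact (Submodule.mem_dualCoannihilator _).mp hv α (Submodule.subset_span hH)
  have h2 := Subspace.finrank_add_finrank_dualCoannihilator_eq N
  rw [h1, finrank_bot, add_zero] at h2
  refine Submodule.eq_top_of_finrank_eq ?_
  rw [h2, Subspace.dual_finrank_eq]

theorem hcV_zero_eq_zero [FiniteDimensional K V] {A : Set (Submodule K V)}
    (hA : ∀ H ∈ A, ∃ α : Dual K V, LinearMap.ker α = H) (hinf : sInf A = ⊥)
    {μ : Submodule K V → ℕ} (hμ : ∀ H ∈ A, 1 ≤ μ H) {f : VF K V} (hf : f ∈ logVF A μ) :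
    hcV 0 f = 0 := by
  have key : ∀ α : Dual K V, LinearMap.ker α ∈ A → hcV 0 f α = 0 := by
    intro α hα
    have h1 : frm α ∣ f α := (dvd_pow_self _ (by have := hμ _ hα; omega)).trans (hf α hα)
    obtain ⟨z, hz⟩ := h1
    rw [hcV_apply, hz, hc_mul_of_mem_lt (ι_mem_homog α) 0 (by omega)]
  have hspan := span_forms hA hinf
  refine LinearMap.ext_on hspan fun α hα => ?_
  rw [key α hα, LinearMap.zero_apply]

theorem exists_Q [FiniteDimensional K V] {A : Set (Submodule K V)} (hfin : A.Finite)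
    (hA : ∀ H ∈ A, IsCoatom H) (m : Submodule K V → ℕ) :
    ∃ Q : Poly K V, Q ≠ 0 ∧ ∀ f : VF K V, Q • f ∈ logVF A m := by
  classical
  choose! F hF using fun H (hH : IsCoatom H) => exists_form (K := K) (V := V) hH
  refine ⟨∏ H ∈ hfin.toFinset, frm (F H) ^ m H, ?_, ?_⟩
  · rw [Finset.prod_ne_zero_iff]
    intro H hH
    refine pow_ne_zero _ (frm_ne_zero ?_)
    intro h0
    have h1 := hF H (hA H (hfin.mem_toFinset.mp hH))
    rw [h0, LinearMap.ker_zero] at h1
    exact (hA H (hfin.mem_toFinset.mp hH)).1 h1.symm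
  · intro f α hα
    rw [LinearMap.smul_apply, smul_eq_mul]
    refine Dvd.dvd.mul_right ?_ _
    have hα0 : F (LinearMap.ker α) ≠ 0 := by
      intro h0
      have h1 := hF _ (hA _ hα)
      rw [h0, LinearMap.ker_zero] at h1
      exact (hA _ hα).1 h1.symm
    obtain ⟨c, hc, hc'⟩ := form_unique hα0 (hF _ (hA _ hα))
    have h2 : (frm α : Poly K V) ^ m (LinearMap.ker α) ∣
        frm (F (LinearMap.ker α)) ^ m (LinearMap.ker α) := by
      refine pow_dvd_pow_of_dvd ?_ _
      have h3 : (frm (F (LinearMap.ker α)) : Poly K V) = algebraMap K (Poly K V) c⁻¹ * frm α := by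
        conv_rhs => rw [hc', frm_smul]
        rw [← mul_assoc, ← map_mul, inv_mul_cancel₀ hc, map_one, one_mul]
      rw [h3]
      exact dvd_mul_left _ _
    exact h2.trans (Finset.dvd_prod_of_mem _ (hfin.mem_toFinset.mpr hα))

end General

section Geometry
variable {K : Type*} [Field K] {V : Type*} [AddCommGroup V] [Module K V] (X : Submodule K V)

/-- pull back `Sym((V/X)*) → Sym(V*)` -/
noncomputable def pb : Poly K (V ⧸ X) →ₐ[K] Poly K V :=
  SymmetricAlgebra.lift (SymmetricAlgebra.ι K (Dual K V) ∘ₗ X.mkQ.dualMap)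

theorem pb_frm (β : Dual K (V ⧸ X)) : pb X (frm β) = frm (β ∘ₗ X.mkQ) := by
  simp [pb, frm, LinearMap.dualMap_apply']

/-- restriction to the affine subspace `p + s(V/X)` -/
noncomputable def rs (s : (V ⧸ X) →ₗ[K] V) (p : V) : Poly K V →ₐ[K] Poly K (V ⧸ X) :=
  SymmetricAlgebra.lift (SymmetricAlgebra.ι K (Dual K (V ⧸ X)) ∘ₗ s.dualMap +
    Algebra.linearMap K _ ∘ₗ Dual.eval K V p)

variable {X}

theorem rs_frm (s : (V ⧸ X) →ₗ[K] V) (p : V) (α : Dual K V) :
    rs X s p (frm α) = frm (α ∘ₗ s) + algebraMap K _ (α p) := by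
  simp [rs, frm, LinearMap.dualMap_apply']

theorem rs_pd (s : (V ⧸ X) →ₗ[K] V) (p : V) (w : V ⧸ X) (g : Poly K V) :
    rs X s p (pd (s w) g) = pd w (rs X s p g) := by
  induction g using SymmetricAlgebra.induction with
  | algebraMap r => simp
  | ι α =>
    have h1 := pd_frm (K := K) (s w) α
    have h2 := rs_frm s p α
    have h3 := pd_frm (K := K) w (α ∘ₗ s)
    unfold frm at h1 h2 h3
    rw [h1, h2, map_add, h3, AlgHom.commutes, Derivation.map_algebraMap, add_zero]
    rfl
  | mul a b ha hb =>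
    rw [Derivation.leibniz, map_add, smul_eq_mul, smul_eq_mul, map_mul, map_mul, ha, hb, map_mul,
      Derivation.leibniz, smul_eq_mul, smul_eq_mul]
  | add a b ha hb => rw [map_add, map_add, ha, hb, map_add, map_add]

theorem rs_pb {s : (V ⧸ X) →ₗ[K] V} (hs : X.mkQ ∘ₗ s = LinearMap.id) {p : V} (hp : p ∈ X)
    (g : Poly K (V ⧸ X)) : rs X s p (pb X g) = g := by
  induction g using SymmetricAlgebra.induction with
  | algebraMap r => simp
  | ι β =>
    have h1 := pb_frm X β
    have h2 := rs_frm s p (β ∘ₗ X.mkQ)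
    unfold frm at h1 h2
    rw [h1, h2, LinearMap.comp_assoc, hs, LinearMap.comp_id, LinearMap.comp_apply]
    have : X.mkQ p = 0 := by simpa using hp
    rw [this, map_zero, map_zero, add_zero]
  | mul a b ha hb => rw [map_mul, map_mul, ha, hb]
  | add a b ha hb => rw [map_add, map_add, ha, hb]

/-- the vector field on `V/X` induced by a derivation of `Sym(V*)` -/
noncomputable def bar (s : (V ⧸ X) →ₗ[K] V) (p : V) (δ : Der K V) : VF K (V ⧸ X) :=
  (rs X s p).toLinearMap ∘ₗ δ.toLinearMap ∘ₗ SymmetricAlgebra.ι K (Dual K V) ∘ₗ X.mkQ.dualMap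

theorem bar_apply (s : (V ⧸ X) →ₗ[K] V) (p : V) (δ : Der K V) (β : Dual K (V ⧸ X)) :
    bar s p δ β = rs X s p (δ (frm (β ∘ₗ X.mkQ))) := rfl

/-- derivative of the induced field in a direction of `X` -/
noncomputable def zet (s : (V ⧸ X) →ₗ[K] V) (p : V) (δ : Der K V) (x : V) : VF K (V ⧸ X) :=
  (rs X s p).toLinearMap ∘ₗ (pd x).toLinearMap ∘ₗ δ.toLinearMap ∘ₗ
    SymmetricAlgebra.ι K (Dual K V) ∘ₗ X.mkQ.dualMap

theorem zet_apply (s : (V ⧸ X) →ₗ[K] V) (p : V) (δ : Der K V) (x : V) (β : Dual K (V ⧸ X)) :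
    zet s p δ x β = rs X s p (pd x (δ (frm (β ∘ₗ X.mkQ)))) := rfl

theorem rs_frm_mkQ {s : (V ⧸ X) →ₗ[K] V} (hs : X.mkQ ∘ₗ s = LinearMap.id) {p : V} (hp : p ∈ X)
    (β : Dual K (V ⧸ X)) : rs X s p (frm (β ∘ₗ X.mkQ)) = frm β := by
  rw [← pb_frm, rs_pb hs hp]

theorem ker_comp_mkQ (β : Dual K (V ⧸ X)) :
    LinearMap.ker (β ∘ₗ X.mkQ) = (LinearMap.ker β).comap X.mkQ := LinearMap.ker_comp _ _

theorem bar_mem {s : (V ⧸ X) →ₗ[K] V} (hs : X.mkQ ∘ₗ s = LinearMap.id) {p : V} (hp : p ∈ X)
    {A : Set (Submodule K V)} {μ : Submodule K V → ℕ} {δ : Der K V} (hδ : δ ∈ logDer A μ) :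
    bar s p δ ∈ logVF (locArr A X) (locMult μ X) := by
  intro β hβ
  have hβ' : LinearMap.ker (β ∘ₗ X.mkQ) ∈ A := by rw [ker_comp_mkQ]; exact hβ
  have h1 := map_dvd (rs X s p) (hδ (β ∘ₗ X.mkQ) hβ')
  rw [map_pow, rs_frm_mkQ hs hp, ker_comp_mkQ] at h1
  exact h1

theorem zet_mem {s : (V ⧸ X) →ₗ[K] V} (hs : X.mkQ ∘ₗ s = LinearMap.id) {p : V} (hp : p ∈ X)
    {A : Set (Submodule K V)} {μ : Submodule K V → ℕ} {δ : Der K V} (hδ : δ ∈ logDer A μ)
    {x : V} (hx : x ∈ X) :
    zet s p δ x ∈ logVF (locArr A X) (locMult μ X) := by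
  intro β hβ
  have hβ' : LinearMap.ker (β ∘ₗ X.mkQ) ∈ A := by rw [ker_comp_mkQ]; exact hβ
  obtain ⟨z, hz⟩ := hδ (β ∘ₗ X.mkQ) hβ'
  rw [zet_apply, hz, Derivation.leibniz, Derivation.leibniz_pow]
  have h0 : pd x (frm (β ∘ₗ X.mkQ)) = 0 := by
    rw [pd_frm, LinearMap.comp_apply]
    have : X.mkQ x = 0 := by simpa using hx
    rw [this, map_zero, map_zero]
  rw [h0, smul_zero, smul_zero, smul_zero, add_zero, smul_eq_mul, map_mul, map_pow,
    rs_frm_mkQ hs hp, ker_comp_mkQ]
  exact dvd_mul_right _ _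

theorem bar_nabla [FiniteDimensional K V] (s : (V ⧸ X) →ₗ[K] V) (p : V) {θ φ δ : Der K V} (h : IsNabla φ θ δ) :
    bar s p δ = ∑ i, rs X s p (φ (frm ((Module.finBasis K V).coord i))) •
      (dV (X.mkQ (Module.finBasis K V i)) (bar s p θ) +
        zet s p θ (Module.finBasis K V i - s (X.mkQ (Module.finBasis K V i)))) := by
  set b := Module.finBasis K V with hb
  ext β
  rw [bar_apply, h, LinearMap.sum_apply]
  generalize hg : θ (frm (β ∘ₗ X.mkQ)) = g
  conv_lhs => rw [der_expand b φ]
  rw [der_sum_apply, map_sum]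
  refine Finset.sum_congr rfl fun i _ => ?_
  rw [Derivation.smul_apply, smul_eq_mul, map_mul, LinearMap.smul_apply, smul_eq_mul,
    LinearMap.add_apply, dV_apply, bar_apply, zet_apply, hg, ← rs_pd, ← map_add,
    ← Derivation.add_apply, ← pd_add, add_sub_cancel]

theorem exists_generic [FiniteDimensional K V] [CharZero K] {A : Set (Submodule K V)}
    (hfin : A.Finite) : ∃ p ∈ X, ∀ H ∈ A, ¬ X ≤ H → p ∉ H := by
  classical
  have hinf : Infinite K := inferInstance
  let S : Set (Submodule K X) := (fun H : Submodule K V => H.comap X.subtype) '' {H ∈ A | ¬ X ≤ H}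
  have hS : S.Finite := (hfin.subset (Set.sep_subset _ _)).image _
  have htop : ⊤ ∉ hS.toFinset := by
    rw [hS.mem_toFinset]
    rintro ⟨H, ⟨_, hH⟩, hH2⟩
    apply hH
    intro x hx
    have : (⟨x, hx⟩ : X) ∈ H.comap X.subtype := by simp only at hH2; rw [hH2]; trivial
    exact this
  have h1 := Subspace.biUnion_ne_univ_of_top_notMem (k := K) (E := X) htop
  obtain ⟨p, hp⟩ := (Set.ne_univ_iff_exists_notMem _).mp h1
  refine ⟨p, p.2, fun H hH hXH hpH => hp ?_⟩
  rw [Set.mem_iUnion₂]
  refine ⟨H.comap X.subtype, ?_, hpH⟩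
  rw [hS.mem_toFinset]
  exact ⟨H, ⟨hH, hXH⟩, rfl⟩

theorem ainv_frm {W : Type*} [AddCommGroup W] [Module K W] (β : Dual K W) :
    SymmetricAlgebra.algebraMapInv (frm β : Poly K W) = 0 :=
  SymmetricAlgebra.algebraMapInv_ι β

theorem sub_smul_VF {W : Type*} [AddCommGroup W] [Module K W] (a c : Poly K W) (f : VF K W) :
    (a - c) • f = a • f - c • f := by
  ext β
  simp only [LinearMap.smul_apply, LinearMap.sub_apply, smul_eq_mul, sub_mul]

theorem loc_coatom {A : Set (Submodule K V)} (hA : ∀ H ∈ A, IsCoatom H)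
    {H' : Submodule K (V ⧸ X)} (hH' : H' ∈ locArr A X) :
    ∃ β : Dual K (V ⧸ X), LinearMap.ker β = H' := by
  obtain ⟨α, hα⟩ := exists_form (hA _ hH')
  have hX : X ≤ LinearMap.ker α := by
    rw [hα]
    intro x hx
    rw [Submodule.mem_comap]
    have : X.mkQ x = 0 := by simpa using hx
    rw [this]; exact H'.zero_mem
  refine ⟨X.liftQ α hX, ?_⟩
  rw [Submodule.ker_liftQ, hα, Submodule.map_comap_eq, Submodule.range_mkQ, top_inf_eq]

theorem loc_isCoatom {A : Set (Submodule K V)} (hA : ∀ H ∈ A, IsCoatom H)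
    {H' : Submodule K (V ⧸ X)} (hH' : H' ∈ locArr A X) : IsCoatom H' := by
  have h1 : IsCoatom (H'.comap X.mkQ) := hA _ hH'
  constructor
  · rintro rfl
    exact h1.1 (by simp)
  · intro L hL
    have h2 : H'.comap X.mkQ < L.comap X.mkQ := by
      refine lt_of_le_of_ne (Submodule.comap_mono hL.le) ?_
      intro h
      exact hL.ne (Submodule.comap_injective_of_surjective X.mkQ_surjective h)
    have h3 := h1.2 _ h2
    exact Submodule.comap_injective_of_surjective X.mkQ_surjective (by rw [h3]; simp)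

theorem loc_sInf {A : Set (Submodule K V)} (hX : InLattice A X) : sInf (locArr A X) = ⊥ := by
  obtain ⟨B, hB, rfl⟩ := hX
  rw [eq_bot_iff]
  intro w hw
  obtain ⟨v, rfl⟩ := (sInf B).mkQ_surjective w
  have h1 : v ∈ sInf B := by
    rw [Submodule.mem_sInf]
    intro H hH
    have hle : sInf B ≤ H := sInf_le hH
    have h2 : H.map (sInf B).mkQ ∈ locArr A (sInf B) := by
      change (H.map (sInf B).mkQ).comap (sInf B).mkQ ∈ A
      rw [Submodule.comap_map_mkQ, sup_eq_right.mpr hle]
      exact hB hH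
    have h3 := (Submodule.mem_sInf.mp hw) _ h2
    have h4 : v ∈ (H.map (sInf B).mkQ).comap (sInf B).mkQ := h3
    rw [Submodule.comap_map_mkQ, sup_eq_right.mpr hle] at h4
    exact h4
  rw [Submodule.mem_bot]
  simpa using h1

/-- `pd k g = 0`, `β k ≠ 0`, `β ∣ g` force `g = 0` -/
theorem eq_zero_of_dvd_of_pd [CharZero K] {W : Type*} [AddCommGroup W] [Module K W]
    [FiniteDimensional K W] {β : Dual K W} {k : W} (hk : β k ≠ 0) {g : Poly K W}
    (h : frm β ∣ g) (hg : pd k g = 0) : g = 0 := by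
  have key : ∀ n : ℕ, frm β ^ n ∣ g := by
    intro n
    induction n with
    | zero => simp
    | succ n ih =>
      cases n with
      | zero => simpa using h
      | succ n =>
        obtain ⟨z, rfl⟩ := ih
        rw [Derivation.leibniz, Derivation.leibniz_pow, Nat.add_sub_cancel, pd_frm, smul_eq_mul,
          smul_eq_mul, smul_eq_mul, nsmul_eq_mul] at hg
        have hβ0 : (frm β : Poly K W) ≠ 0 := frm_ne_zero (by rintro rfl; exact hk rfl)
        have h1 : frm β ^ n * (frm β * pd k z + ((n + 1 : ℕ) : Poly K W) *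
            algebraMap K (Poly K W) (β k) * z) = 0 := by
          rw [← hg]; ring
        have h2 := (mul_eq_zero.mp h1).resolve_left (pow_ne_zero n hβ0)
        have h3 : frm β ∣ z := by
          have h4 : ((n + 1 : ℕ) : K) * β k ≠ 0 :=
            mul_ne_zero (Nat.cast_ne_zero.mpr (Nat.succ_ne_zero n)) hk
          have h5 : z = - (algebraMap K (Poly K W) (((n + 1 : ℕ) : K) * β k)⁻¹) *
              (frm β * pd k z) := by
            have h6 : frm β * pd k z = - (algebraMap K (Poly K W) (((n + 1 : ℕ) : K) * β k) * z) := by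
              rw [map_mul, map_natCast]
              exact eq_neg_of_add_eq_zero_left h2
            rw [h6, neg_mul_neg, ← mul_assoc, ← map_mul, inv_mul_cancel₀ h4, map_one, one_mul]
          rw [h5]
          exact Dvd.dvd.mul_left (dvd_mul_right _ _) _
        rw [pow_succ]
        exact mul_dvd_mul_left _ h3
  -- degree bound
  obtain ⟨N, hN⟩ := sum_hc g
  have h0 : ∀ j, hc j g = 0 := by
    intro j
    obtain ⟨z, hz⟩ := key (j + 1)
    rw [hz, hc_mul_of_mem_lt (ι_pow_mem_homog β (j + 1)) j (by omega)]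
  rw [← hN N le_rfl]
  exact Finset.sum_eq_zero fun j _ => h0 j

section Main
variable [FiniteDimensional K V] [CharZero K]

/-- the `LocalData` of a localization -/
theorem exists_localData {A : Set (Submodule K V)} (hfin : A.Finite) (hA : ∀ H ∈ A, IsCoatom H)
    {μ : Submodule K V → ℕ} (hμ : ∀ H ∈ A, 1 ≤ μ H) {θ : Der K V} (hθ : IsUniversalDer A μ θ)
    (hX : InLattice A X) :
    ∃ D : LocalData K (V ⧸ X), D.M = logVF (locArr A X) (fun H => locMult μ X H - 1) ∧
      D.M' = logVF (locArr A X) (locMult μ X) := by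
  classical
  obtain ⟨s, hs⟩ := X.mkQ.exists_rightInverse_of_surjective X.range_mkQ
  obtain ⟨p, hpX, hp⟩ := exists_generic (X := X) hfin
  choose! F hF using fun H (hH : IsCoatom H) => exists_form (K := K) (V := V) hH
  set Q' : Poly K V := ∏ H ∈ hfin.toFinset.filter (fun H => ¬ X ≤ H), frm (F H) ^ (μ H - 1) with hQ'
  have hfinW : (locArr A X).Finite := by
    have h1 : (Submodule.comap X.mkQ) '' (locArr A X) ⊆ A := by
      rintro _ ⟨H', hH', rfl⟩; exact hH'
    exact Set.Finite.of_finite_image (hfin.subset h1)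
      (Submodule.comap_injective_of_surjective X.mkQ_surjective).injOn
  have hcW : ∀ H' ∈ locArr A X, IsCoatom H' := fun H' hH' => loc_isCoatom hA hH'
  have hfW : ∀ H' ∈ locArr A X, ∃ β : Dual K (V ⧸ X), LinearMap.ker β = H' :=
    fun H' hH' => loc_coatom hA hH'
  have hμW : ∀ H' ∈ locArr A X, 1 ≤ locMult μ X H' := fun H' hH' => hμ _ hH'
  have hinf := loc_sInf hX
  set M := logVF (locArr A X) (fun H => locMult μ X H - 1) with hMdef
  set M' := logVF (locArr A X) (locMult μ X) with hM'def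
  have hM' : ∀ f ∈ M', ∀ k, hcV k f ∈ M' := fun f hf k => logVF_hcV hf k
  have hd : ∀ f ∈ M', ∀ w, dV w f ∈ M := fun f hf w => logVF_dV hf w
  have h0 : ∀ f ∈ M', hcV 0 f = 0 := fun f hf => hcV_zero_eq_zero hfW hinf hμW hf
  obtain ⟨Q, hQ0, hQ⟩ := exists_Q (K := K) hfinW hcW (fun H => locMult μ X H - 1)
  set q0 : K := SymmetricAlgebra.algebraMapInv (rs X s p Q') with hq0def
  have hq0 : q0 ≠ 0 := by
    rw [hq0def, hQ', map_prod, map_prod, Finset.prod_ne_zero_iff]
    intro H hH
    rw [Finset.mem_filter, hfin.mem_toFinset] at hH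
    rw [map_pow, map_pow, rs_frm, map_add, ainv_frm, zero_add,
      SymmetricAlgebra.algebraMap_leftInverse]
    refine pow_ne_zero _ fun h => hp H hH.1 hH.2 ?_
    rw [← hF H (hA H hH.1)]; exact h
  have hq : ∀ ψ ∈ M, ∃ w, q0 • ψ - dV w (bar s p θ) ∈ irr K (Dual K (V ⧸ X)) • M := by
    intro ψ hψ
    -- the derivation δ
    let δ : Der K V := mkDer ((LinearMap.mulLeft K Q') ∘ₗ (pb X).toLinearMap ∘ₗ ψ ∘ₗ s.dualMap)
    have hδ : ∀ α : Dual K V, δ (frm α) = Q' * pb X (ψ (α ∘ₗ s)) := fun α => by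
      simp only [δ]
      exact mkDer_ι _ _
    have hδmem : δ ∈ logDer A (fun H => μ H - 1) := by
      intro α hα
      rw [hδ]
      by_cases hXα : X ≤ LinearMap.ker α
      · have h1 : (α ∘ₗ s) ∘ₗ X.mkQ = α := by
          ext v
          have h2 : s (X.mkQ v) - v ∈ X := by
            have h3 : X.mkQ (s (X.mkQ v) - v) = 0 := by
              rw [map_sub]
              have := LinearMap.congr_fun hs (X.mkQ v)
              simp only [LinearMap.comp_apply, LinearMap.id_apply] at this
              rw [this, sub_self]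
            exact (Submodule.Quotient.mk_eq_zero X).mp h3
          have h4 := hXα h2
          rw [LinearMap.mem_ker, map_sub, sub_eq_zero] at h4
          exact h4
        have h2 : LinearMap.ker (α ∘ₗ s) ∈ locArr A X := by
          change (LinearMap.ker (α ∘ₗ s)).comap X.mkQ ∈ A
          rw [← ker_comp_mkQ, h1]; exact hα
        have h3 := map_dvd (pb X) (hψ (α ∘ₗ s) h2)
        rw [map_pow, pb_frm, h1] at h3
        have h4 : locMult μ X (LinearMap.ker (α ∘ₗ s)) = μ (LinearMap.ker α) := by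
          unfold locMult; rw [← ker_comp_mkQ, h1]
        change frm α ^ (locMult μ X (LinearMap.ker (α ∘ₗ s)) - 1) ∣ _ at h3
        rw [h4] at h3
        exact h3.mul_left _
      · refine Dvd.dvd.mul_right ?_ _
        have hα0 : F (LinearMap.ker α) ≠ 0 := by
          intro h0
          have h1 := hF _ (hA _ hα)
          rw [h0, LinearMap.ker_zero] at h1
          exact (hA _ hα).1 h1.symm
        obtain ⟨c, hc, hc'⟩ := form_unique hα0 (hF _ (hA _ hα))
        have h2 : (frm α : Poly K V) ^ (μ (LinearMap.ker α) - 1) ∣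
            frm (F (LinearMap.ker α)) ^ (μ (LinearMap.ker α) - 1) := by
          refine pow_dvd_pow_of_dvd ?_ _
          have h3 : (frm (F (LinearMap.ker α)) : Poly K V) =
              algebraMap K (Poly K V) c⁻¹ * frm α := by
            conv_rhs => rw [hc', frm_smul]
            rw [← mul_assoc, ← map_mul, inv_mul_cancel₀ hc, map_one, one_mul]
          rw [h3]
          exact dvd_mul_left _ _
        refine h2.trans (Finset.dvd_prod_of_mem
          (fun H => (frm (F H) : Poly K V) ^ (μ H - 1)) ?_)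
        rw [Finset.mem_filter, hfin.mem_toFinset]
        exact ⟨hα, hXα⟩
    obtain ⟨φ, hφ, _⟩ := hθ.2.2.2 δ hδmem
    have hbar := bar_nabla s p hφ
    have hbarδ : bar s p δ = rs X s p Q' • ψ := by
      ext β
      rw [bar_apply, hδ, map_mul, rs_pb hs hpX, LinearMap.comp_assoc, hs, LinearMap.comp_id]
      rfl
    rw [hbarδ] at hbar
    set b := Module.finBasis K V with hb
    have hth : bar s p θ ∈ M' := bar_mem hs hpX hθ.2.1
    let c : Fin (Module.finrank K V) → K := fun i =>
      SymmetricAlgebra.algebraMapInv (rs X s p (φ (frm (b.coord i))))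
    refine ⟨∑ i, c i • X.mkQ (b i), ?_⟩
    have hsum : dV (∑ i, c i • X.mkQ (b i)) (bar s p θ) =
        ∑ i, algebraMap K (Poly K (V ⧸ X)) (c i) • dV (X.mkQ (b i)) (bar s p θ) := by
      have h4 : ∀ (t : Finset (Fin (Module.finrank K V))), dV (∑ i ∈ t, c i • X.mkQ (b i)) (bar s p θ) =
          ∑ i ∈ t, algebraMap K (Poly K (V ⧸ X)) (c i) • dV (X.mkQ (b i)) (bar s p θ) := by
        intro t
        induction t using Finset.induction_on with
        | empty => simp [dV_zero]
        | insert x t hx ih =>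
          rw [Finset.sum_insert hx, Finset.sum_insert hx, dV_add, dV_smul, ih]
          congr 1
      exact h4 _
    have hq0' : q0 • ψ = algebraMap K (Poly K (V ⧸ X)) q0 • ψ := by
      ext β; simp [Algebra.smul_def]
    have hfinal : q0 • ψ - dV (∑ i, c i • X.mkQ (b i)) (bar s p θ) =
        -((rs X s p Q' - algebraMap K (Poly K (V ⧸ X)) q0) • ψ) +
        (∑ i, (rs X s p (φ (frm (b.coord i))) - algebraMap K (Poly K (V ⧸ X)) (c i)) •
          dV (X.mkQ (b i)) (bar s p θ)) +
        ∑ i, rs X s p (φ (frm (b.coord i))) • zet s p θ (b i - s (X.mkQ (b i))) := by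
      rw [hq0', hsum, sub_smul_VF, hbar]
      simp only [smul_add, Finset.sum_add_distrib, sub_smul_VF, Finset.sum_sub_distrib]
      abel
    rw [hfinal]
    refine Submodule.add_mem _ (Submodule.add_mem _ (Submodule.neg_mem _ ?_) ?_) ?_
    · exact Submodule.smul_mem_smul (sub_const_mem_irr _) hψ
    · exact Submodule.sum_mem _ fun i _ =>
        Submodule.smul_mem_smul (sub_const_mem_irr _) (hd _ hth _)
    · refine Submodule.sum_mem _ fun i _ => Submodule.smul_mem _ _ (irr_le hM' hd h0 ?_)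
      refine zet_mem hs hpX hθ.2.1 ?_
      have h3 : X.mkQ (b i - s (X.mkQ (b i))) = 0 := by
        rw [map_sub]
        have := LinearMap.congr_fun hs (X.mkQ (b i))
        simp only [LinearMap.comp_apply, LinearMap.id_apply] at this
        rw [this, sub_self]
      exact (Submodule.Quotient.mk_eq_zero X).mp h3
  exact ⟨{ M := M, M' := M', th := bar s p θ, q0 := q0, Q := Q,
           hM := fun f hf k => logVF_hcV hf k
           hM' := hM', hd := hd, h0 := h0, hth := bar_mem hs hpX hθ.2.1,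
           hq0 := hq0, hq := hq, hQ0 := hQ0, hQ := hQ }, rfl, rfl⟩

/-- If the kernel `K0` vanishes, the lowest component is a universal derivation. -/
theorem universal_of_K0 {W : Type*} [AddCommGroup W] [Module K W] [FiniteDimensional K W]
    [Nontrivial W] {A : Set (Submodule K W)} {μ : Submodule K W → ℕ} (D : LocalData K W)
    (hM : D.M = logVF A (fun H => μ H - 1)) (hM' : D.M' = logVF A μ) (hK : D.K0 = ⊥) :
    IsUniversalDer A μ (mkDer D.eta) := by
  classical
  refine ⟨⟨D.d + 1, fun α => ?_⟩, ?_, ?_, ?_⟩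
  · rw [mkDer_frm]
    exact hc_mem _ _
  · intro α hα
    rw [mkDer_frm]
    have := D.eta_mem
    rw [hM'] at this
    exact this α hα
  · intro φ
    refine ⟨mkDer (φ.toLinearMap ∘ₗ D.eta), ?_, fun α => ?_⟩
    · intro α hα
      rw [mkDer_frm]
      have h1 : φ.toLinearMap ∘ₗ D.eta = ∑ i, φ (frm ((Module.finBasis K W).coord i)) •
          dV (Module.finBasis K W i) D.eta := by
        ext β
        rw [LinearMap.sum_apply]
        change φ (D.eta β) = _
        conv_lhs => rw [der_expand (Module.finBasis K W) φ]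
        rw [der_sum_apply]
        rfl
      have h2 : φ.toLinearMap ∘ₗ D.eta ∈ D.M := by
        rw [h1]
        exact Submodule.sum_mem _ fun i _ => Submodule.smul_mem _ _ (D.hd _ D.eta_mem _)
      rw [hM] at h2
      exact h2 α hα
    · rw [mkDer_frm, mkDer_frm]; rfl
  · intro ψ hψ
    have h1 : toVF ψ ∈ D.M := by rw [hM]; exact hψ
    set b := Module.finBasis K W with hb
    have h2 : ∃ a : Fin (Module.finrank K W) → Poly K W, toVF ψ = ∑ i, a i • dV (b i) D.eta := by
      have h3 := D.generate hK h1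
      have h4 : Submodule.span (Poly K W) (Set.range fun w => dV w D.eta) ≤
          Submodule.span (Poly K W) (Set.range fun i => dV (b i) D.eta) := by
        rw [Submodule.span_le]
        rintro _ ⟨w, rfl⟩
        change dV w D.eta ∈ _
        have h5 : dV w D.eta = ∑ i, b.repr w i • dV (b i) D.eta := by
          have h6 : ∀ (s : Finset (Fin (Module.finrank K W))) (a : Fin (Module.finrank K W) → K),
              dV (∑ i ∈ s, a i • b i) D.eta = ∑ i ∈ s, a i • dV (b i) D.eta := by
            intro s a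
            induction s using Finset.induction_on with
            | empty => simp [dV_zero]
            | insert x s hx ih =>
              rw [Finset.sum_insert hx, Finset.sum_insert hx, dV_add, dV_smul, ih]
          conv_lhs => rw [← b.sum_repr w]
          exact h6 _ _
        rw [h5]
        exact Submodule.sum_mem _ fun i _ => smul_mem_K _ (Submodule.subset_span ⟨i, rfl⟩)
      have h5 := h4 h3
      rw [Submodule.mem_span_range_iff_exists_fun] at h5
      obtain ⟨a, ha⟩ := h5
      exact ⟨a, ha.symm⟩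
    obtain ⟨a, ha⟩ := h2
    refine ⟨∑ i, a i • pd (b i), ?_, ?_⟩
    · intro α
      rw [mkDer_frm]
      have h3 := LinearMap.congr_fun ha α
      rw [toVF_apply, LinearMap.sum_apply] at h3
      rw [h3, der_sum_apply]
      rfl
    · intro φ hφ
      have h3 : ∑ i, (φ (frm (b.coord i)) - a i) • dV (b i) D.eta = 0 := by
        simp only [sub_smul_VF, Finset.sum_sub_distrib]
        rw [← ha, sub_eq_zero]
        ext β
        rw [toVF_apply, hφ β, mkDer_frm, LinearMap.sum_apply]
        conv_rhs => rw [der_expand b φ]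
        rw [der_sum_apply]
        rfl
      have h4 := D.independent hK b _ h3
      conv_lhs => rw [der_expand b φ]
      refine Finset.sum_congr rfl fun i _ => ?_
      have := congrFun h4 i
      simp only [Pi.zero_apply, sub_eq_zero] at this
      rw [this]

/-- the kernel `K0` splits the arrangement -/
theorem K0_split {W : Type*} [AddCommGroup W] [Module K W] [FiniteDimensional K W]
    [Nontrivial W] {A : Set (Submodule K W)} (hA : ∀ H ∈ A, ∃ α : Dual K W, LinearMap.ker α = H)
    (hinf : sInf A = ⊥) {μ : Submodule K W → ℕ} (hμ : ∀ H ∈ A, 1 ≤ μ H) (D : LocalData K W)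
    (hM' : D.M' = logVF A μ) :
    ∃ L : Submodule K W, IsCompl D.K0 L ∧ (∀ H ∈ A, D.K0 ≤ H ∨ L ≤ H) ∧ L ≠ ⊥ := by
  set S : Set (Dual K W) := {β | LinearMap.ker β ∈ A ∧ ¬ D.K0 ≤ LinearMap.ker β} with hS
  set N : Submodule K (Dual K W) := Submodule.span K S with hN
  have heta : ∀ β ∈ N, D.eta β = 0 := by
    intro β hβ
    induction hβ using Submodule.span_induction with
    | mem β hβ =>
      obtain ⟨h1, h2⟩ := hβ
      rw [SetLike.not_le_iff_exists] at h2
      obtain ⟨k, hk, hk'⟩ := h2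
      have h3 := D.eta_mem
      rw [hM'] at h3
      have h4 : frm β ∣ D.eta β :=
        (dvd_pow_self _ (by have := hμ _ h1; omega)).trans (h3 β h1)
      refine eq_zero_of_dvd_of_pd hk' h4 ?_
      have h5 := LinearMap.congr_fun (D.mem_K0.mp hk) β
      exact h5
    | zero => exact map_zero _
    | add x y _ _ hx hy => rw [map_add, hx, hy, add_zero]
    | smul c x _ hx => rw [map_smul, hx, smul_zero]
  have hfr := D.finrank_le N heta
  have hL := Subspace.finrank_add_finrank_dualCoannihilator_eq N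
  set L := N.dualCoannihilator with hLdef
  have hdisj : Disjoint D.K0 L := by
    rw [disjoint_iff, eq_bot_iff, ← hinf]
    rintro w ⟨hw1, hw2⟩
    rw [Submodule.mem_sInf]
    intro H hH
    obtain ⟨β, rfl⟩ := hA H hH
    by_cases hb : D.K0 ≤ LinearMap.ker β
    · exact hb hw1
    · rw [LinearMap.mem_ker]
      exact (Submodule.mem_dualCoannihilator _).mp hw2 β (Submodule.subset_span ⟨hH, hb⟩)
  have hcompl : IsCompl D.K0 L := by
    refine ⟨hdisj, ?_⟩
    rw [codisjoint_iff]
    refine Submodule.eq_top_of_finrank_eq ?_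
    have h1 := Submodule.finrank_sup_add_finrank_inf_eq D.K0 L
    rw [disjoint_iff.mp hdisj, finrank_bot, add_zero] at h1
    have h2 := Submodule.finrank_le (D.K0 ⊔ L)
    omega
  refine ⟨L, hcompl, ?_, ?_⟩
  · intro H hH
    obtain ⟨β, rfl⟩ := hA H hH
    by_cases hb : D.K0 ≤ LinearMap.ker β
    · exact Or.inl hb
    · right
      intro w hw
      rw [LinearMap.mem_ker]
      exact (Submodule.mem_dualCoannihilator _).mp hw β (Submodule.subset_span ⟨hH, hb⟩)
  · intro h
    have := hcompl.sup_eq_top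
    rw [h, sup_bot_eq] at this
    exact D.K0_ne_top this

theorem universal_trivial {W : Type*} [AddCommGroup W] [Module K W] [Subsingleton W]
    (A : Set (Submodule K W)) (μ : Submodule K W → ℕ) : IsUniversalDer A μ (0 : Der K W) := by
  have hD : ∀ α : Dual K W, α = 0 := fun α => by
    ext v; rw [Subsingleton.elim v 0, map_zero, map_zero]
  have hD' : ∀ D E : Der K W, D = E := fun D E => der_ext fun α => by
    rw [hD α]; simp [frm]
  refine ⟨⟨0, fun α => by simp⟩, fun α _ => by simp, fun φ => ⟨0, fun α _ => by simp, fun α => by simp⟩,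
    fun ψ _ => ⟨0, fun α => ?_, fun φ _ => hD' _ _⟩⟩
  rw [hD' ψ 0]; simp

theorem irreducible_localization {A : Set (Submodule K V)} (hfin : A.Finite)
    (hA : ∀ H ∈ A, IsCoatom H) {μ : Submodule K V → ℕ} (hμ : ∀ H ∈ A, 1 ≤ μ H)
    (hθ : ∃ θ : Der K V, IsUniversalDer A μ θ) (hX : InLattice A X)
    (hirr : IsIrreducibleArr (locArr A X)) :
    ∃ θ' : Der K (V ⧸ X), IsUniversalDer (locArr A X) (locMult μ X) θ' := by
  obtain ⟨θ, hθ⟩ := hθ
  rcases subsingleton_or_nontrivial (V ⧸ X) with hW | hW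
  · exact ⟨0, universal_trivial _ _⟩
  · obtain ⟨D, hM, hM'⟩ := exists_localData hfin hA hμ hθ hX
    obtain ⟨L, hc, hs, hL⟩ := K0_split (fun H' hH' => loc_coatom hA hH') (loc_sInf hX)
      (μ := locMult μ X) (fun H' hH' => hμ _ hH') D hM'
    refine ⟨mkDer D.eta, universal_of_K0 D hM hM' ?_⟩
    exact (hirr _ _ hc hs).resolve_right hL

end Main

end Geometry

end Pool.Agent.Lib.MP_63137b_co
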