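import Mathlib
import Pool.Agent.Lib.MP_63137b_co.Main

open Module

namespace Pool.Agent.Lib.MP_63137b_co

section Prime
variable {K : Type*} [Field K] {V : Type*} [AddCommGroup V] [Module K V]

theorem frm_prime {α : Dual K V} (hα : α ≠ 0) : Prime (frm α : Poly K V) := by
  classical
  have hli : LinearIndepOn K id ({α} : Set (Dual K V)) := by
    rw [linearIndepOn_singleton_iff]
    exact hα
  let b := Basis.extend hli
  have hmem : α ∈ hli.extend (Set.subset_univ _) := hli.subset_extend _ (Set.mem_singleton α)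
  let e := SymmetricAlgebra.equivMvPolynomial b
  have h1 : e (frm α) = MvPolynomial.X ⟨α, hmem⟩ := by
    have h2 : b ⟨α, hmem⟩ = α := Basis.extend_apply_self hli ⟨α, hmem⟩
    have h3 := SymmetricAlgebra.equivMvPolynomial_ι_apply b ⟨α, hmem⟩
    rw [h2] at h3
    exact h3
  have h4 : Prime (e (frm α)) := by rw [h1]; exact MvPolynomial.X_prime
  exact (MulEquiv.prime_iff e.toMulEquiv).mp h4

theorem frm_injective {α β : Dual K V} (h : (frm α : Poly K V) = frm β) : α = β := by
  ext w
  have h1 := pd_frm w α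
  have h2 := pd_frm w β
  rw [h, h2] at h1
  exact (SymmetricAlgebra.algebraMap_inj _ _ _).mp h1.symm

theorem dvd_frm {α β : Dual K V} (h : (frm α : Poly K V) ∣ frm β) : ∃ c : K, β = c • α := by
  obtain ⟨g, hg⟩ := h
  have h1 := hc_mul_of_mem (ι_mem_homog α) 0 g
  rw [add_zero] at h1
  change hc 1 (frm α * g) = frm α * hc 0 g at h1
  rw [← hg, hc_of_mem (ι_mem_homog β), if_pos rfl, hc_zero_eq] at h1
  refine ⟨SymmetricAlgebra.algebraMapInv g, frm_injective ?_⟩
  rw [frm_smul, mul_comm]
  exact h1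

theorem prod_pow_dvd {R : Type*} [CommRing R] [IsDomain R] {ι' : Type*} (s : Finset ι')
    (p : ι' → R) (m : ι' → ℕ) (hp : ∀ i, Prime (p i)) (hpq : ∀ i j, i ≠ j → ¬ p i ∣ p j) {z : R}
    (h : ∀ i ∈ s, p i ^ m i ∣ z) : ∏ i ∈ s, p i ^ m i ∣ z := by
  classical
  induction s using Finset.induction_on with
  | empty => simp
  | insert a s ha ih =>
    rw [Finset.prod_insert ha]
    obtain ⟨w, hw⟩ := ih fun i hi => h i (Finset.mem_insert_of_mem hi)
    have h1 : p a ^ m a ∣ (∏ i ∈ s, p i ^ m i) * w := by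
      rw [← hw]; exact h a (Finset.mem_insert_self a s)
    have h2 : ¬ p a ∣ ∏ i ∈ s, p i ^ m i := by
      intro h3
      obtain ⟨i, hi, h4⟩ := (hp a).exists_mem_finset_dvd h3
      exact hpq a i (by rintro rfl; exact ha hi) ((hp a).dvd_of_dvd_pow h4)
    obtain ⟨v, hv⟩ := (hp a).pow_dvd_of_dvd_mul_left _ h2 h1
    rw [hw, hv]
    exact ⟨v, by ring⟩

end Prime

section Three
variable {K : Type*} [Field K]

/-- ambient space -/
abbrev V3 (K : Type*) [Field K] := Fin 3 → K

/-- linear form with given coefficients -/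
noncomputable def lf (c : Fin 3 → K) : Dual K (V3 K) := ∑ j, c j • LinearMap.proj j

theorem lf_apply (c : Fin 3 → K) (v : V3 K) : lf c v = ∑ j, c j * v j := by
  simp [lf, LinearMap.sum_apply]

/-- coordinate functions as polynomials -/
noncomputable def yy (j : Fin 3) : Poly K (V3 K) := frm (LinearMap.proj j : Dual K (V3 K))

theorem frm_lf (c : Fin 3 → K) :
    (frm (lf c) : Poly K (V3 K)) = ∑ j, algebraMap K _ (c j) * yy j := by
  unfold lf yy frm
  rw [map_sum]
  refine Finset.sum_congr rfl fun j _ => ?_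
  rw [map_smul, Algebra.smul_def]

theorem form_eq_lf (α : Dual K (V3 K)) : α = lf (fun j => α (Pi.single j 1)) := by
  refine LinearMap.pi_ext' fun j => LinearMap.ext_ring ?_
  rw [LinearMap.comp_apply, LinearMap.comp_apply, lf_apply]
  simp [Pi.single_apply]

/-- vector fields are determined by coordinates -/
theorem VF_lf (g : VF K (V3 K)) (c : Fin 3 → K) :
    g (lf c) = ∑ j, algebraMap K _ (c j) * g (LinearMap.proj j) := by
  unfold lf
  rw [map_sum]
  refine Finset.sum_congr rfl fun j _ => ?_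
  rw [map_smul, Algebra.smul_def]

/-- divisibility of the determinant of vector fields -/
theorem det_dvd (R : Matrix (Fin 3) (Fin 3) (Poly K (V3 K))) (c : Fin 3 → K) (hc : c ≠ 0)
    (q : Poly K (V3 K)) (h : ∀ i, q ∣ ∑ j, algebraMap K _ (c j) * R i j) : q ∣ R.det := by
  obtain ⟨k, hk⟩ : ∃ k, c k ≠ 0 := by
    by_contra hcon
    push Not at hcon
    exact hc (funext hcon)
  set a : Fin 3 → Poly K (V3 K) := fun j => algebraMap K _ (c j) with ha
  have h1 : R.adjugate.mulVec (R.mulVec a) = R.det • a := by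
    rw [Matrix.mulVec_mulVec, Matrix.adjugate_mul, Matrix.smul_mulVec, Matrix.one_mulVec]
  have h2 := congrFun h1 k
  rw [Pi.smul_apply, smul_eq_mul] at h2
  have h3 : q ∣ R.adjugate.mulVec (R.mulVec a) k := by
    change q ∣ ∑ i, R.adjugate k i * R.mulVec a i
    refine Finset.dvd_sum fun i _ => Dvd.dvd.mul_left ?_ _
    have h4 : R.mulVec a i = ∑ j, algebraMap K _ (c j) * R i j := by
      unfold Matrix.mulVec dotProduct
      exact Finset.sum_congr rfl fun j _ => mul_comm _ _
    rw [h4]; exact h i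
  rw [h2] at h3
  have h5 : R.det = (R.det * a k) * algebraMap K _ (c k)⁻¹ := by
    rw [mul_assoc, ← map_mul, mul_inv_cancel₀ hk, map_one, mul_one]
  rw [h5]
  exact h3.mul_right _

end Three

end Pool.Agent.Lib.MP_63137b_co
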