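import Mathlib
import Pool.Agent.Lib.MP_63137b_co.Saito

/-!
The reflection arrangement `B₃` with multiplicity `5` on `x_i = 0` and `3` on `x_i = ± x_j` has a
universal derivation, but its localization at `x_0 = 0, x_1 = x_2` has none.
-/

open Module

namespace Pool.Agent.Lib.MP_63137b_co

section Example
variable (K : Type*) [Field K]

/-- integer coefficient vectors of the nine forms -/
def cz : Fin 9 → Fin 3 → ℤ :=
  ![![1, 0, 0], ![0, 1, 0], ![0, 0, 1], ![1, -1, 0], ![1, 1, 0], ![1, 0, -1], ![1, 0, 1],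
    ![0, 1, -1], ![0, 1, 1]]

/-- the nine forms -/
noncomputable def fo (i : Fin 9) : Dual K (V3 K) := lf fun j => (cz i j : K)

/-- the arrangement -/
def arrB : Set (Submodule K (V3 K)) := Set.range fun i => LinearMap.ker (fo K i)

/-- exponents -/
def ex : Fin 9 → ℕ := ![5, 5, 5, 3, 3, 3, 3, 3, 3]

open Classical in
/-- the multiplicity -/
noncomputable def muB (H : Submodule K (V3 K)) : ℕ :=
  if ∃ i : Fin 9, i < 3 ∧ H = LinearMap.ker (fo K i) then 5 else 3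

variable {K}

theorem cz_indep : ∀ i j : Fin 9, i ≠ j → ∃ a b : Fin 3, cz i a * cz j b - cz i b * cz j a ≠ 0 := by
  decide

theorem cz_ne : ∀ i : Fin 9, ∃ a : Fin 3, cz i a ≠ 0 := by decide

variable [CharZero K]

theorem fo_ne (i : Fin 9) : fo K i ≠ 0 := by
  intro h
  obtain ⟨a, ha⟩ := cz_ne i
  have h1 := LinearMap.congr_fun h (Pi.single a 1)
  rw [fo, lf_apply] at h1
  simp [Pi.single_apply] at h1
  exact ha h1

theorem fo_not_smul {i j : Fin 9} (hij : i ≠ j) (c : K) : fo K j ≠ c • fo K i := by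
  intro h
  obtain ⟨a, b, hab⟩ := cz_indep i j hij
  have h1 := LinearMap.congr_fun h (Pi.single a 1)
  have h2 := LinearMap.congr_fun h (Pi.single b 1)
  rw [fo, LinearMap.smul_apply, fo, lf_apply, lf_apply] at h1 h2
  simp only [Pi.single_apply, mul_ite, mul_one, mul_zero, Finset.sum_ite_eq', Finset.mem_univ,
    if_true, smul_eq_mul] at h1 h2
  apply hab
  have : ((cz i a * cz j b - cz i b * cz j a : ℤ) : K) = 0 := by
    push_cast
    rw [h1, h2]; ring
  exact_mod_cast this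

theorem fo_ker_inj {i j : Fin 9} (h : LinearMap.ker (fo K i) = LinearMap.ker (fo K j)) : i = j := by
  by_contra hij
  obtain ⟨c, _, hc⟩ := form_unique (fo_ne i) h
  exact fo_not_smul hij c hc

theorem muB_fo (i : Fin 9) : muB K (LinearMap.ker (fo K i)) = ex i := by
  classical
  unfold muB
  have h1 : (∃ j : Fin 9, j < 3 ∧ LinearMap.ker (fo K i) = LinearMap.ker (fo K j)) ↔ i < 3 := by
    constructor
    · rintro ⟨j, hj, h⟩; rw [fo_ker_inj h]; exact hj
    · intro h; exact ⟨i, h, rfl⟩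
  simp only [h1]
  fin_cases i <;> simp [ex]

theorem ker_isCoatom {α : Dual K (V3 K)} (hα : α ≠ 0) : IsCoatom (LinearMap.ker α) := by
  refine ⟨fun h => hα (LinearMap.ker_eq_top.mp h), fun L hL => ?_⟩
  obtain ⟨hle, v, hv, hv'⟩ := SetLike.lt_iff_le_and_exists.mp hL
  rw [eq_top_iff]
  intro w _
  have h1 : w - (α w / α v) • v ∈ LinearMap.ker α := by
    rw [LinearMap.mem_ker, map_sub, map_smul, smul_eq_mul, div_mul_cancel₀ _ hv', sub_self]
  have h2 := L.add_mem (hle h1) (L.smul_mem (α w / α v) hv)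
  rwa [sub_add_cancel] at h2

/-- the polynomials of the universal derivation -/
noncomputable def FF (i j k : Fin 3) : Poly K (V3 K) :=
  yy i ^ 5 * (5 * yy i ^ 4 - 9 * yy i ^ 2 * (yy j ^ 2 + yy k ^ 2) + 21 * yy j ^ 2 * yy k ^ 2)

/-- the three components -/
noncomputable def F3 : Fin 3 → Poly K (V3 K) := ![FF 0 1 2, FF 1 0 2, FF 2 0 1]

/-- the vector field -/
noncomputable def vB : VF K (V3 K) :=
  ∑ j, (LinearMap.mulRight K (F3 (K := K) j)) ∘ₗ (Algebra.linearMap K (Poly K (V3 K))) ∘ₗ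
    (Dual.eval K (V3 K) (Pi.single j 1))

theorem vB_proj (j : Fin 3) : vB (K := K) (LinearMap.proj j) = F3 j := by
  simp only [vB, LinearMap.sum_apply, LinearMap.comp_apply, Dual.eval_apply,
    Algebra.linearMap_apply, LinearMap.mulRight_apply, LinearMap.proj_apply]
  rw [Finset.sum_eq_single j]
  · simp
  · intro i _ hij
    rw [Pi.single_eq_of_ne (Ne.symm hij)]; simp
  · intro h; exact absurd (Finset.mem_univ _) h

theorem yy_homog (j : Fin 3) : yy (K := K) j ∈ homog K (Dual K (V3 K)) 1 := ι_mem_homog _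

theorem yy_pow_homog (j : Fin 3) (n : ℕ) : yy (K := K) j ^ n ∈ homog K (Dual K (V3 K)) n :=
  ι_pow_mem_homog _ n

theorem FF_homog (i j k : Fin 3) : FF (K := K) i j k ∈ homog K (Dual K (V3 K)) 9 := by
  have h : FF (K := K) i j k = (5 : ℕ) • (yy i ^ 9) - (9 : ℕ) • (yy i ^ 7 * yy j ^ 2) -
      (9 : ℕ) • (yy i ^ 7 * yy k ^ 2) + (21 : ℕ) • (yy i ^ 5 * yy j ^ 2 * yy k ^ 2) := by
    unfold FF
    simp only [nsmul_eq_mul]
    push_cast
    ring
  rw [h]
  refine Submodule.add_mem _ (Submodule.sub_mem _ (Submodule.sub_mem _ ?_ ?_) ?_) ?_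
  · exact Submodule.smul_of_tower_mem _ _ (yy_pow_homog i 9)
  · exact Submodule.smul_of_tower_mem _ _ (homog_mul (yy_pow_homog i 7) (yy_pow_homog j 2))
  · exact Submodule.smul_of_tower_mem _ _ (homog_mul (yy_pow_homog i 7) (yy_pow_homog k 2))
  · exact Submodule.smul_of_tower_mem _ _
      (homog_mul (homog_mul (yy_pow_homog i 5) (yy_pow_homog j 2)) (yy_pow_homog k 2))

theorem F3_homog (j : Fin 3) : F3 (K := K) j ∈ homog K (Dual K (V3 K)) 9 := by
  fin_cases j <;> exact FF_homog _ _ _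

theorem frm_fo (i : Fin 9) : (frm (fo K i) : Poly K (V3 K)) =
    ∑ j, algebraMap K _ ((cz i j : ℤ) : K) * yy j := frm_lf _

theorem vB_fo (i : Fin 9) : vB (fo K i) = ∑ j, algebraMap K _ ((cz i j : ℤ) : K) * F3 j := by
  rw [fo, VF_lf]
  simp only [vB_proj]

/-- the cofactors -/
theorem vB_fo_dvd (i : Fin 9) : frm (fo K i) ^ ex i ∣ vB (fo K i) := by
  rw [frm_fo, vB_fo]
  simp only [Fin.sum_univ_three, map_intCast]
  set a := yy (K := K) 0
  set b := yy (K := K) 1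
  set c := yy (K := K) 2
  fin_cases i
  · refine ⟨5 * a ^ 4 - 9 * a ^ 2 * (b ^ 2 + c ^ 2) + 21 * b ^ 2 * c ^ 2, ?_⟩
    simp [cz, ex, F3, FF, a, b, c]
  · refine ⟨5 * b ^ 4 - 9 * b ^ 2 * (a ^ 2 + c ^ 2) + 21 * a ^ 2 * c ^ 2, ?_⟩
    simp [cz, ex, F3, FF, a, b, c]
  · refine ⟨5 * c ^ 4 - 9 * c ^ 2 * (a ^ 2 + b ^ 2) + 21 * a ^ 2 * b ^ 2, ?_⟩
    simp [cz, ex, F3, FF, a, b, c]
  · refine ⟨5 * a ^ 6 + 15 * a ^ 5 * b + 21 * a ^ 4 * b ^ 2 - 9 * a ^ 4 * c ^ 2 + 23 * a ^ 3 * b ^ 3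
      - 27 * a ^ 3 * b * c ^ 2 - 33 * a ^ 2 * b ^ 2 * c ^ 2 + 21 * a ^ 2 * b ^ 4
      - 27 * a * b ^ 3 * c ^ 2 + 15 * a * b ^ 5 - 9 * b ^ 4 * c ^ 2 + 5 * b ^ 6, ?_⟩
    simp [cz, ex, F3, FF]
    ring
  · refine ⟨5 * a ^ 6 - 15 * a ^ 5 * b + 21 * a ^ 4 * b ^ 2 - 9 * a ^ 4 * c ^ 2 - 23 * a ^ 3 * b ^ 3
      + 27 * a ^ 3 * b * c ^ 2 - 33 * a ^ 2 * b ^ 2 * c ^ 2 + 21 * a ^ 2 * b ^ 4
      + 27 * a * b ^ 3 * c ^ 2 - 15 * a * b ^ 5 - 9 * b ^ 4 * c ^ 2 + 5 * b ^ 6, ?_⟩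
    simp [cz, ex, F3, FF]
    ring
  · refine ⟨5 * a ^ 6 + 15 * a ^ 5 * c + 21 * a ^ 4 * c ^ 2 - 9 * a ^ 4 * b ^ 2 + 23 * a ^ 3 * c ^ 3
      - 27 * a ^ 3 * c * b ^ 2 - 33 * a ^ 2 * c ^ 2 * b ^ 2 + 21 * a ^ 2 * c ^ 4
      - 27 * a * c ^ 3 * b ^ 2 + 15 * a * c ^ 5 - 9 * c ^ 4 * b ^ 2 + 5 * c ^ 6, ?_⟩
    simp [cz, ex, F3, FF]
    ring
  · refine ⟨5 * a ^ 6 - 15 * a ^ 5 * c + 21 * a ^ 4 * c ^ 2 - 9 * a ^ 4 * b ^ 2 - 23 * a ^ 3 * c ^ 3
      + 27 * a ^ 3 * c * b ^ 2 - 33 * a ^ 2 * c ^ 2 * b ^ 2 + 21 * a ^ 2 * c ^ 4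
      + 27 * a * c ^ 3 * b ^ 2 - 15 * a * c ^ 5 - 9 * c ^ 4 * b ^ 2 + 5 * c ^ 6, ?_⟩
    simp [cz, ex, F3, FF]
    ring
  · refine ⟨5 * b ^ 6 + 15 * b ^ 5 * c + 21 * b ^ 4 * c ^ 2 - 9 * b ^ 4 * a ^ 2 + 23 * b ^ 3 * c ^ 3
      - 27 * b ^ 3 * c * a ^ 2 - 33 * b ^ 2 * c ^ 2 * a ^ 2 + 21 * b ^ 2 * c ^ 4
      - 27 * b * c ^ 3 * a ^ 2 + 15 * b * c ^ 5 - 9 * c ^ 4 * a ^ 2 + 5 * c ^ 6, ?_⟩
    simp [cz, ex, F3, FF]
    ring
  · refine ⟨5 * b ^ 6 - 15 * b ^ 5 * c + 21 * b ^ 4 * c ^ 2 - 9 * b ^ 4 * a ^ 2 - 23 * b ^ 3 * c ^ 3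
      + 27 * b ^ 3 * c * a ^ 2 - 33 * b ^ 2 * c ^ 2 * a ^ 2 + 21 * b ^ 2 * c ^ 4
      + 27 * b * c ^ 3 * a ^ 2 - 15 * b * c ^ 5 - 9 * c ^ 4 * a ^ 2 + 5 * c ^ 6, ?_⟩
    simp [cz, ex, F3, FF]
    ring

theorem vB_mem : vB (K := K) ∈ logVF (arrB K) (muB K) := by
  rintro α ⟨i, hi⟩
  obtain ⟨c, _, hc⟩ := form_unique (fo_ne i) hi
  rw [← hi, muB_fo, hc, map_smul, frm_smul, mul_pow, ← map_pow]
  rw [Algebra.smul_def]
  obtain ⟨z, hz⟩ := vB_fo_dvd (K := K) i
  rw [hz]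
  by_cases h0 : c = 0
  · subst h0; simp
  · refine ⟨algebraMap K _ (c ^ ex i)⁻¹ * algebraMap K _ c * z, ?_⟩
    have h1 : algebraMap K (Poly K (V3 K)) (c ^ ex i) * algebraMap K _ (c ^ ex i)⁻¹ = 1 := by
      rw [← map_mul, mul_inv_cancel₀ (pow_ne_zero _ h0), map_one]
    calc _ = (algebraMap K (Poly K (V3 K)) (c ^ ex i) * algebraMap K _ (c ^ ex i)⁻¹) *
          (algebraMap K _ c * (frm (fo K i) ^ ex i * z)) := by rw [h1, one_mul]
      _ = _ := by ring

/-- derivatives of the coordinate functions -/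
theorem pd_yy (i j : Fin 3) : pd (Pi.single i (1 : K)) (yy (K := K) j) = if i = j then 1 else 0 := by
  unfold yy
  rw [pd_frm, LinearMap.proj_apply, Pi.single_apply]
  by_cases h : i = j
  · simp [h]
  · simp [h, Ne.symm h]

/-- the Jacobian matrix -/
noncomputable def JJ : Matrix (Fin 3) (Fin 3) (Poly K (V3 K)) :=
  Matrix.of fun i j => pd (Pi.single i (1 : K)) (F3 (K := K) j)

theorem pd_pow_yy (i j : Fin 3) (n : ℕ) : pd (Pi.single i (1 : K)) (yy (K := K) j ^ (n + 1)) =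
    if i = j then ((n : Poly K (V3 K)) + 1) * yy j ^ n else 0 := by
  rw [Derivation.leibniz_pow, pd_yy, Nat.add_sub_cancel]
  split_ifs <;> simp

theorem FF_expand (i j k : Fin 3) : FF (K := K) i j k =
    (5 : ℕ) • (yy i ^ 9) - (9 : ℕ) • (yy i ^ 7 * yy j ^ 2) -
      (9 : ℕ) • (yy i ^ 7 * yy k ^ 2) + (21 : ℕ) • (yy i ^ 5 * (yy j ^ 2 * yy k ^ 2)) := by
  unfold FF
  simp only [nsmul_eq_mul]
  push_cast
  ring

theorem pd_FF_self {i j k : Fin 3} (hij : i ≠ j) (hik : i ≠ k) :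
    pd (Pi.single i (1 : K)) (FF (K := K) i j k) = 45 * yy i ^ 8 - 63 * yy i ^ 6 * yy j ^ 2 -
      63 * yy i ^ 6 * yy k ^ 2 + 105 * yy i ^ 4 * yy j ^ 2 * yy k ^ 2 := by
  rw [FF_expand, map_add, map_sub, map_sub, map_nsmul, map_nsmul, map_nsmul, map_nsmul]
  simp only [Derivation.leibniz, pd_pow_yy, if_true, if_neg hij,
    if_neg hik, smul_eq_mul, nsmul_eq_mul]
  push_cast
  ring

theorem pd_FF_mid {i j k : Fin 3} (hij : i ≠ j) (hjk : j ≠ k) :
    pd (Pi.single j (1 : K)) (FF (K := K) i j k) = - 18 * yy i ^ 7 * yy j +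
      42 * yy i ^ 5 * yy j * yy k ^ 2 := by
  rw [FF_expand, map_add, map_sub, map_sub, map_nsmul, map_nsmul, map_nsmul, map_nsmul]
  simp only [Derivation.leibniz, pd_pow_yy, if_true,
    if_neg hij.symm, if_neg hjk, smul_eq_mul, nsmul_eq_mul]
  push_cast
  ring

theorem FF_swap (i j k : Fin 3) : FF (K := K) i j k = FF i k j := by
  unfold FF; ring

theorem pd_FF_last {i j k : Fin 3} (hik : i ≠ k) (hjk : j ≠ k) :
    pd (Pi.single k (1 : K)) (FF (K := K) i j k) = - 18 * yy i ^ 7 * yy k +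
      42 * yy i ^ 5 * yy k * yy j ^ 2 := by
  rw [FF_swap]
  exact pd_FF_mid hik hjk.symm

theorem JJ_det : (JJ (K := K)).det = algebraMap K _ (-297675 : K) *
    ∏ i : Fin 9, frm (fo K i) ^ (ex i - 1) := by
  have h00 : JJ (K := K) 0 0 = _ := pd_FF_self (i := 0) (j := 1) (k := 2) (by decide) (by decide)
  have h10 : JJ (K := K) 1 0 = _ := pd_FF_mid (i := 0) (j := 1) (k := 2) (by decide) (by decide)
  have h20 : JJ (K := K) 2 0 = _ := pd_FF_last (i := 0) (j := 1) (k := 2) (by decide) (by decide)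
  have h11 : JJ (K := K) 1 1 = _ := pd_FF_self (i := 1) (j := 0) (k := 2) (by decide) (by decide)
  have h01 : JJ (K := K) 0 1 = _ := pd_FF_mid (i := 1) (j := 0) (k := 2) (by decide) (by decide)
  have h21 : JJ (K := K) 2 1 = _ := pd_FF_last (i := 1) (j := 0) (k := 2) (by decide) (by decide)
  have h22 : JJ (K := K) 2 2 = _ := pd_FF_self (i := 2) (j := 0) (k := 1) (by decide) (by decide)
  have h02 : JJ (K := K) 0 2 = _ := pd_FF_mid (i := 2) (j := 0) (k := 1) (by decide) (by decide)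
  have h12 : JJ (K := K) 1 2 = _ := pd_FF_last (i := 2) (j := 0) (k := 1) (by decide) (by decide)
  have hc : algebraMap K (Poly K (V3 K)) (-297675 : K) = -297675 := by
    rw [map_neg, map_ofNat]
  rw [Matrix.det_fin_three, h00, h01, h02, h10, h11, h12, h20, h21, h22, hc]
  simp only [frm_fo, Fin.prod_univ_succ, Fin.prod_univ_zero, Fin.sum_univ_three, map_intCast]
  simp only [cz, ex]
  simp
  ring

theorem der_pow_dvd {V : Type*} [AddCommGroup V] [Module K V] {α : Dual K V} {n : ℕ}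
    {g : Poly K V} (h : frm α ^ n ∣ g) (φ : Der K V) : frm α ^ (n - 1) ∣ φ g := by
  obtain ⟨z, rfl⟩ := h
  cases n with
  | zero => simp
  | succ n =>
    rw [Derivation.leibniz, Derivation.leibniz_pow, Nat.add_sub_cancel]
    refine dvd_add ?_ ?_
    · exact Dvd.intro (frm α * φ z) (by rw [smul_eq_mul, pow_succ]; ring)
    · rw [smul_eq_mul, smul_eq_mul, nsmul_eq_mul]
      exact Dvd.intro (z * ((n + 1 : ℕ) : Poly K V) * φ (frm α)) (by ring)

/-- product over the arrangement divides determinants of logarithmic fields -/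
theorem prod_dvd_det (R : Matrix (Fin 3) (Fin 3) (Poly K (V3 K)))
    (h : ∀ l i, frm (fo K l) ^ (ex l - 1) ∣ ∑ j, algebraMap K _ ((cz l j : ℤ) : K) * R i j) :
    ∏ i : Fin 9, frm (fo K i) ^ (ex i - 1) ∣ R.det := by
  refine prod_pow_dvd _ (fun i => (frm (fo K i) : Poly K (V3 K))) (fun i => ex i - 1)
    (fun i => frm_prime (fo_ne i)) ?_ ?_
  · intro i j hij hdvd
    obtain ⟨c, hc⟩ := dvd_frm hdvd
    exact fo_not_smul hij c hc
  · intro l _
    refine det_dvd R (fun j => ((cz l j : ℤ) : K)) ?_ _ (h l)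
    intro h0
    exact fo_ne (K := K) l (by unfold fo; rw [h0]; ext; simp [lf])

theorem Qne : (∏ i : Fin 9, frm (fo K i) ^ (ex i - 1) : Poly K (V3 K)) ≠ 0 :=
  Finset.prod_ne_zero_iff.mpr fun i _ => pow_ne_zero _ (frm_ne_zero (fo_ne i))

theorem JJ_det_ne : (JJ (K := K)).det ≠ 0 := by
  rw [JJ_det]
  refine mul_ne_zero ?_ Qne
  rw [Ne, SymmetricAlgebra.algebraMap_eq_zero_iff]
  norm_num

theorem der_coord (φ : Der K (V3 K)) (g : Poly K (V3 K)) :
    φ g = ∑ i, φ (yy i) * pd (Pi.single i (1 : K)) g := by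
  conv_lhs => rw [der_expand (Pi.basisFun K (Fin 3)) φ]
  rw [der_sum_apply]
  refine Finset.sum_congr rfl fun i _ => ?_
  rw [Derivation.smul_apply, smul_eq_mul, Pi.basisFun_apply]
  rfl

theorem universal_B : IsUniversalDer (arrB K) (muB K) (mkDer (vB (K := K))) := by
  refine ⟨⟨9, fun α => ?_⟩, ?_, ?_, ?_⟩
  · rw [mkDer_frm, form_eq_lf α, VF_lf]
    refine Submodule.sum_mem _ fun j _ => ?_
    rw [← Algebra.smul_def, vB_proj]
    exact Submodule.smul_mem _ _ (F3_homog j)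
  · intro α hα
    rw [mkDer_frm]
    exact vB_mem α hα
  · intro φ
    refine ⟨mkDer (φ.toLinearMap ∘ₗ vB), ?_, fun α => ?_⟩
    · intro α hα
      rw [mkDer_frm]
      exact der_pow_dvd (vB_mem α hα) φ
    · rw [mkDer_frm, mkDer_frm]; rfl
  · intro ψ hψ
    set P : Poly K (V3 K) := ∏ i : Fin 9, frm (fo K i) ^ (ex i - 1) with hP
    let ψv : Fin 3 → Poly K (V3 K) := fun j => ψ (yy j)
    have hψl : ∀ l, frm (fo K l) ^ (ex l - 1) ∣ ∑ j, algebraMap K _ ((cz l j : ℤ) : K) * ψv j := by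
      intro l
      have h1 := hψ (fo K l) ⟨l, rfl⟩
      simp only [muB_fo] at h1
      have h2 : ψ (frm (fo K l)) = ∑ j, algebraMap K _ ((cz l j : ℤ) : K) * ψv j :=
        VF_lf (toVF ψ) _
      rwa [h2] at h1
    have hJl : ∀ l i, frm (fo K l) ^ (ex l - 1) ∣
        ∑ j, algebraMap K _ ((cz l j : ℤ) : K) * JJ (K := K) i j := by
      intro l i
      have h1 := pd_pow_dvd (vB_fo_dvd (K := K) l) (Pi.single i (1 : K))
      rw [vB_fo] at h1
      have h2 : pd (Pi.single i (1 : K)) (∑ j, algebraMap K _ ((cz l j : ℤ) : K) * F3 (K := K) j) =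
          ∑ j, algebraMap K _ ((cz l j : ℤ) : K) * JJ (K := K) i j := by
        rw [map_sum]
        refine Finset.sum_congr rfl fun j _ => ?_
        rw [← Algebra.smul_def, Derivation.map_smul, Algebra.smul_def]
        rfl
      rwa [h2] at h1
    have hz : ∀ i, P ∣ (JJ (K := K)).transpose.cramer ψv i := by
      intro i
      rw [Matrix.cramer_transpose_apply]
      refine prod_dvd_det _ fun l k => ?_
      by_cases hk : k = i
      · subst hk
        simp only [Matrix.updateRow_self]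
        exact hψl l
      · simp only [Matrix.updateRow_ne hk]
        exact hJl l k
    choose z hz' using hz
    have hc0 : (-297675 : K) ≠ 0 := by norm_num
    have hsol : ∀ j, ∑ i, z i * JJ (K := K) i j = algebraMap K _ (-297675 : K) * ψv j := by
      intro j
      have h1 := congrFun (Matrix.mulVec_cramer (JJ (K := K)).transpose ψv) j
      rw [Matrix.det_transpose, JJ_det, Pi.smul_apply, smul_eq_mul] at h1
      have h2 : (JJ (K := K)).transpose.mulVec ((JJ (K := K)).transpose.cramer ψv) j =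
          P * ∑ i, z i * JJ (K := K) i j := by
        change ∑ i, (JJ (K := K)) i j * _ = _
        rw [Finset.mul_sum]
        refine Finset.sum_congr rfl fun i _ => ?_
        rw [hz' i]; ring
      rw [h2, ← hP] at h1
      refine mul_left_cancel₀ (Qne (K := K)) ?_
      rw [← hP, h1]; ring
    let φ : Der K (V3 K) := ∑ i, (algebraMap K (Poly K (V3 K)) (-297675 : K)⁻¹ * z i) •
      pd (Pi.single i (1 : K))
    have hφ : ∀ g, φ g = ∑ i, (algebraMap K (Poly K (V3 K)) (-297675 : K)⁻¹ * z i) *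
        pd (Pi.single i (1 : K)) g := by
      intro g
      simp only [φ, der_sum_apply]
      rfl
    have hnab : ∀ j, ψv j = φ (F3 j) := by
      intro j
      rw [hφ]
      have h1 := hsol j
      have h2 : ∑ i, (algebraMap K (Poly K (V3 K)) (-297675 : K)⁻¹ * z i) *
          pd (Pi.single i (1 : K)) (F3 j) = algebraMap K (Poly K (V3 K)) (-297675 : K)⁻¹ *
          ∑ i, z i * JJ (K := K) i j := by
        rw [Finset.mul_sum]
        exact Finset.sum_congr rfl fun i _ => mul_assoc _ _ _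
      rw [h2, h1, ← mul_assoc, ← map_mul, inv_mul_cancel₀ hc0, map_one, one_mul]
    refine ⟨φ, ?_, ?_⟩
    · intro α
      have h1 : toVF ψ = φ.toLinearMap ∘ₗ vB := by
        refine LinearMap.ext fun β => ?_
        rw [form_eq_lf β, VF_lf, VF_lf]
        refine Finset.sum_congr rfl fun j _ => ?_
        congr 1
        rw [LinearMap.comp_apply, vB_proj]
        exact hnab j
      have h2 := LinearMap.congr_fun h1 α
      rw [mkDer_frm]
      exact h2
    · intro φ' hφ'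
      have h1 : ∀ j, ∑ i, (φ' (yy i) - φ (yy i)) * JJ (K := K) i j = 0 := by
        intro j
        have h2 := hφ' (LinearMap.proj j)
        rw [mkDer_frm, vB_proj] at h2
        have h3 : ψv j = φ' (F3 j) := h2
        have h4 := hnab j
        rw [h3, der_coord φ', der_coord φ, ← sub_eq_zero, ← Finset.sum_sub_distrib] at h4
        rw [← h4]
        exact Finset.sum_congr rfl fun i _ => sub_mul _ _ _
      have h2 : (fun i => φ' (yy i) - φ (yy i)) = 0 := by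
        refine Matrix.eq_zero_of_vecMul_eq_zero (JJ_det_ne (K := K)) ?_
        ext j
        exact h1 j
      refine der_ext fun α => ?_
      have h3 : toVF φ' = toVF φ := by
        refine LinearMap.ext fun β => ?_
        rw [form_eq_lf β, VF_lf, VF_lf]
        refine Finset.sum_congr rfl fun j _ => ?_
        congr 1
        exact sub_eq_zero.mp (congrFun h2 j)
      exact LinearMap.congr_fun h3 α

theorem arrB_finite : (arrB K).Finite := Set.finite_range _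

theorem arrB_coatom : ∀ H ∈ arrB K, IsCoatom H := by
  rintro _ ⟨i, rfl⟩; exact ker_isCoatom (fo_ne i)

theorem muB_ge : ∀ H ∈ arrB K, 3 ≤ muB K H := by
  rintro _ ⟨i, rfl⟩
  simp only [muB_fo]
  fin_cases i <;> simp [ex]

end Example

end Pool.Agent.Lib.MP_63137b_co
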