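import Mathlib
import Pool.Agent.Lib.MP_63137b_co.Example

open Module

namespace Pool.Agent.Lib.MP_63137b_co

section Example2
variable {K : Type*} [Field K] [CharZero K]

theorem fo_apply (i : Fin 9) (v : V3 K) : fo K i v = ∑ j, ((cz i j : ℤ) : K) * v j := lf_apply _ _

theorem fo0 (v : V3 K) : fo K 0 v = v 0 := by
  rw [fo_apply, Fin.sum_univ_three]; simp [cz]

theorem fo1 (v : V3 K) : fo K 1 v = v 1 := by
  rw [fo_apply, Fin.sum_univ_three]; simp [cz]

theorem fo2 (v : V3 K) : fo K 2 v = v 2 := by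
  rw [fo_apply, Fin.sum_univ_three]; simp [cz]

theorem fo3 (v : V3 K) : fo K 3 v = v 0 - v 1 := by
  rw [fo_apply, Fin.sum_univ_three]; simp [cz]; ring

theorem fo5 (v : V3 K) : fo K 5 v = v 0 - v 2 := by
  rw [fo_apply, Fin.sum_univ_three]; simp [cz]; ring

theorem fo7 (v : V3 K) : fo K 7 v = v 1 - v 2 := by
  rw [fo_apply, Fin.sum_univ_three]; simp [cz]; ring

theorem irr_aux {V₁ V₂ : Submodule K (V3 K)} (hc : IsCompl V₁ V₂) {i : Fin 9}
    (h1 : V₁ ≤ LinearMap.ker (fo K i)) (h2 : V₂ ≤ LinearMap.ker (fo K i)) : False := by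
  have h3 : (⊤ : Submodule K (V3 K)) ≤ LinearMap.ker (fo K i) := by
    rw [← hc.sup_eq_top]; exact sup_le h1 h2
  exact fo_ne i (LinearMap.ker_eq_top.mp (top_le_iff.mp h3))

theorem arrB_irreducible : IsIrreducibleArr (arrB K) := by
  intro V₁ V₂ hc h
  have hm : ∀ i : Fin 9, V₁ ≤ LinearMap.ker (fo K i) ∨ V₂ ≤ LinearMap.ker (fo K i) :=
    fun i => h _ ⟨i, rfl⟩
  -- if `x_a` vanishes on V₁ and `x_b` on V₂, the difference form gives a contradiction
  have key : ∀ (a b c : Fin 9), (∀ v : V3 K, fo K c v = fo K a v - fo K b v) →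
      V₁ ≤ LinearMap.ker (fo K a) → V₂ ≤ LinearMap.ker (fo K b) → False := by
    intro a b c habc ha hb
    rcases hm c with h1 | h1
    · refine irr_aux hc (i := b) (fun v hv => ?_) hb
      have h2 := h1 hv
      have h3 := ha hv
      rw [LinearMap.mem_ker] at h2 h3 ⊢
      rw [habc, h3, zero_sub, neg_eq_zero] at h2
      exact h2
    · refine irr_aux hc (i := a) ha (fun v hv => ?_)
      have h2 := h1 hv
      have h3 := hb hv
      rw [LinearMap.mem_ker] at h2 h3 ⊢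
      rw [habc, h3, sub_zero] at h2
      exact h2
  have key' : ∀ (a b c : Fin 9), (∀ v : V3 K, fo K c v = fo K a v - fo K b v) →
      V₂ ≤ LinearMap.ker (fo K a) → V₁ ≤ LinearMap.ker (fo K b) → False := by
    intro a b c habc ha hb
    rcases hm c with h1 | h1
    · refine irr_aux hc (i := a) (fun v hv => ?_) ha
      have h2 := h1 hv
      have h3 := hb hv
      rw [LinearMap.mem_ker] at h2 h3 ⊢
      rw [habc, h3, sub_zero] at h2
      exact h2
    · refine irr_aux hc (i := b) hb (fun v hv => ?_)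
      have h2 := h1 hv
      have h3 := ha hv
      rw [LinearMap.mem_ker] at h2 h3 ⊢
      rw [habc, h3, zero_sub, neg_eq_zero] at h2
      exact h2
  have e3 : ∀ v : V3 K, fo K 3 v = fo K 0 v - fo K 1 v := fun v => by rw [fo3, fo0, fo1]
  have e5 : ∀ v : V3 K, fo K 5 v = fo K 0 v - fo K 2 v := fun v => by rw [fo5, fo0, fo2]
  have hall : ∀ (U : Submodule K (V3 K)), U ≤ LinearMap.ker (fo K 0) → U ≤ LinearMap.ker (fo K 1) →
      U ≤ LinearMap.ker (fo K 2) → U = ⊥ := by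
    intro U h0 h1 h2
    rw [eq_bot_iff]
    intro v hv
    have a0 := h0 hv
    have a1 := h1 hv
    have a2 := h2 hv
    rw [LinearMap.mem_ker, fo0] at a0
    rw [LinearMap.mem_ker, fo1] at a1
    rw [LinearMap.mem_ker, fo2] at a2
    rw [Submodule.mem_bot]
    ext j
    fin_cases j
    · exact a0
    · exact a1
    · exact a2
  rcases hm 0 with h0 | h0
  · left
    refine hall V₁ h0 ?_ ?_
    · rcases hm 1 with h1 | h1
      · exact h1
      · exact (key 0 1 3 e3 h0 h1).elim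
    · rcases hm 2 with h1 | h1
      · exact h1
      · exact (key 0 2 5 e5 h0 h1).elim
  · right
    refine hall V₂ h0 ?_ ?_
    · rcases hm 1 with h1 | h1
      · exact (key' 0 1 3 e3 h0 h1).elim
      · exact h1
    · rcases hm 2 with h1 | h1
      · exact (key' 0 2 5 e5 h0 h1).elim
      · exact h1

/-- the flat -/
noncomputable def XB (K : Type*) [Field K] : Submodule K (V3 K) :=
  LinearMap.ker (fo K 0) ⊓ LinearMap.ker (fo K 7)

theorem XB_lattice : InLattice (arrB K) (XB K) := by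
  refine ⟨{LinearMap.ker (fo K 0), LinearMap.ker (fo K 7)}, ?_, ?_⟩
  · rintro H (rfl | rfl)
    · exact ⟨0, rfl⟩
    · exact ⟨7, rfl⟩
  · rw [sInf_pair]; rfl

theorem mem_XB : (![0, 1, 1] : V3 K) ∈ XB K := by
  refine ⟨?_, ?_⟩
  · change fo K 0 _ = 0
    rw [fo0]; rfl
  · change fo K 7 _ = 0
    rw [fo7]; simp

/-- the first form on the quotient -/
noncomputable def b0 : Dual K (V3 K ⧸ XB K) := (XB K).liftQ (fo K 0) inf_le_left

/-- the second form on the quotient -/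
noncomputable def b1 : Dual K (V3 K ⧸ XB K) := (XB K).liftQ (fo K 7) inf_le_right

theorem b0_comp : b0 ∘ₗ (XB K).mkQ = fo K 0 := (XB K).liftQ_mkQ _ _
theorem b1_comp : b1 ∘ₗ (XB K).mkQ = fo K 7 := (XB K).liftQ_mkQ _ _

theorem comp_mkQ_injective {β γ : Dual K (V3 K ⧸ XB K)} (h : β ∘ₗ (XB K).mkQ = γ ∘ₗ (XB K).mkQ) :
    β = γ := by
  refine LinearMap.ext fun w => ?_
  obtain ⟨v, rfl⟩ := (XB K).mkQ_surjective w
  exact LinearMap.congr_fun h v

theorem cz_flat : ∀ i : Fin 9, cz i 1 + cz i 2 = 0 → i = 0 ∨ i = 7 := by decide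

/-- forms with kernel in the localization -/
theorem forms_loc {β : Dual K (V3 K ⧸ XB K)} (hβ : LinearMap.ker β ∈ locArr (arrB K) (XB K)) :
    (∃ c : K, c ≠ 0 ∧ β = c • b0) ∨ (∃ c : K, c ≠ 0 ∧ β = c • b1) := by
  have h1 : LinearMap.ker (β ∘ₗ (XB K).mkQ) ∈ arrB K := by rw [ker_comp_mkQ]; exact hβ
  obtain ⟨i, hi⟩ := h1
  simp only at hi
  have h2 : (![0, 1, 1] : V3 K) ∈ LinearMap.ker (fo K i) := by
    rw [hi, LinearMap.mem_ker, LinearMap.comp_apply]
    have : (XB K).mkQ ![0, 1, 1] = 0 := by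
      rw [Submodule.mkQ_apply, Submodule.Quotient.mk_eq_zero]; exact mem_XB
    rw [this, map_zero]
  rw [LinearMap.mem_ker, fo_apply, Fin.sum_univ_three] at h2
  have h3 : cz i 1 + cz i 2 = 0 := by
    have h4 : (((cz i 1 + cz i 2 : ℤ)) : K) = 0 := by
      push_cast
      simpa using h2
    exact_mod_cast h4
  obtain ⟨c, hc, hc'⟩ := form_unique (fo_ne i) hi
  rcases cz_flat i h3 with rfl | rfl
  · left
    refine ⟨c, hc, comp_mkQ_injective ?_⟩
    rw [hc', LinearMap.smul_comp, b0_comp]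
  · right
    refine ⟨c, hc, comp_mkQ_injective ?_⟩
    rw [hc', LinearMap.smul_comp, b1_comp]

theorem ker_b0 : LinearMap.ker (b0 (K := K)) ∈ locArr (arrB K) (XB K) := by
  change (LinearMap.ker b0).comap (XB K).mkQ ∈ arrB K
  rw [← ker_comp_mkQ, b0_comp]; exact ⟨0, rfl⟩

theorem mult_b0 : locMult (muB K) (XB K) (LinearMap.ker (b0 (K := K))) = 5 := by
  unfold locMult
  rw [← ker_comp_mkQ, b0_comp, muB_fo]; rfl

theorem mult_b1 : locMult (muB K) (XB K) (LinearMap.ker (b1 (K := K))) = 3 := by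
  unfold locMult
  rw [← ker_comp_mkQ, b1_comp, muB_fo]; rfl

/-- directions dual to `b0, b1` -/
noncomputable def w0 : V3 K ⧸ XB K := (XB K).mkQ ![1, 0, 0]
noncomputable def w1 : V3 K ⧸ XB K := (XB K).mkQ ![0, 1, 0]

theorem b0_w0 : b0 (K := K) w0 = 1 := by
  have := LinearMap.congr_fun (b0_comp (K := K)) ![1, 0, 0]
  rw [fo0] at this; exact this
theorem b1_w0 : b1 (K := K) w0 = 0 := by
  have := LinearMap.congr_fun (b1_comp (K := K)) ![1, 0, 0]
  rw [fo7] at this
  have h2 : b1 (K := K) w0 = _ := this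
  rw [h2]; simp
theorem b0_w1 : b0 (K := K) w1 = 0 := by
  have := LinearMap.congr_fun (b0_comp (K := K)) ![0, 1, 0]
  rw [fo0] at this
  have h2 : b0 (K := K) w1 = _ := this
  rw [h2]; simp
theorem b1_w1 : b1 (K := K) w1 = 1 := by
  have := LinearMap.congr_fun (b1_comp (K := K)) ![0, 1, 0]
  rw [fo7] at this
  have h2 : b1 (K := K) w1 = _ := this
  rw [h2]; simp

theorem b0_ne : b0 (K := K) ≠ 0 := by
  intro h
  have := b0_w0 (K := K)
  rw [h] at this; simp at this

theorem b1_ne : b1 (K := K) ≠ 0 := by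
  intro h
  have := b1_w1 (K := K)
  rw [h] at this; simp at this

theorem frm_smul_pow_dvd {W : Type*} [AddCommGroup W] [Module K W] {c : K} (hc : c ≠ 0)
    (β : Dual K W) (n : ℕ) : (frm (c • β) : Poly K W) ^ n ∣ frm β ^ n := by
  refine pow_dvd_pow_of_dvd ⟨algebraMap K _ c⁻¹, ?_⟩ n
  rw [frm_smul, mul_comm, ← mul_assoc, ← map_mul, inv_mul_cancel₀ hc, map_one, one_mul]

theorem ker_smul_eq {W : Type*} [AddCommGroup W] [Module K W] {c : K} (hc : c ≠ 0)
    (β : Dual K W) : LinearMap.ker (c • β) = LinearMap.ker β := LinearMap.ker_smul β c hc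

theorem no_universal : ¬ ∃ θ' : Der K (V3 K ⧸ XB K),
    IsUniversalDer (locArr (arrB K) (XB K)) (locMult (muB K) (XB K)) θ' := by
  rintro ⟨θ, ⟨n, hn⟩, hmem, _, huniv⟩
  -- first test derivation
  let g0 : VF K (V3 K ⧸ XB K) := (LinearMap.mulRight K (frm b0 ^ 4)) ∘ₗ
    (Algebra.linearMap K (Poly K (V3 K ⧸ XB K))) ∘ₗ (Dual.eval K _ w0)
  let g1 : VF K (V3 K ⧸ XB K) := (LinearMap.mulRight K (frm b1 ^ 2)) ∘ₗ
    (Algebra.linearMap K (Poly K (V3 K ⧸ XB K))) ∘ₗ (Dual.eval K _ w1)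
  have hg0 : ∀ β, g0 β = algebraMap K _ (β w0) * frm b0 ^ 4 := fun β => rfl
  have hg1 : ∀ β, g1 β = algebraMap K _ (β w1) * frm b1 ^ 2 := fun β => rfl
  have h0 : mkDer g0 ∈ logDer (locArr (arrB K) (XB K))
      (fun H => locMult (muB K) (XB K) H - 1) := by
    intro β hβ
    rw [mkDer_frm, hg0]
    rcases forms_loc hβ with ⟨c, hc, rfl⟩ | ⟨c, hc, rfl⟩
    · rw [ker_smul_eq hc]
      simp only [mult_b0]
      exact (frm_smul_pow_dvd hc b0 4).mul_left _
    · rw [LinearMap.smul_apply, b1_w0, smul_zero, map_zero, zero_mul]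
      exact dvd_zero _
  have h1 : mkDer g1 ∈ logDer (locArr (arrB K) (XB K))
      (fun H => locMult (muB K) (XB K) H - 1) := by
    intro β hβ
    rw [mkDer_frm, hg1]
    rcases forms_loc hβ with ⟨c, hc, rfl⟩ | ⟨c, hc, rfl⟩
    · rw [LinearMap.smul_apply, b0_w1, smul_zero, map_zero, zero_mul]
      exact dvd_zero _
    · rw [ker_smul_eq hc]
      simp only [mult_b1]
      exact (frm_smul_pow_dvd hc b1 2).mul_left _
  obtain ⟨φ0, hφ0, _⟩ := huniv _ h0
  obtain ⟨φ1, hφ1, _⟩ := huniv _ h1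
  have e0 := hφ0 b0
  have e1 := hφ1 b1
  rw [mkDer_frm, hg0, b0_w0, map_one, one_mul] at e0
  rw [mkDer_frm, hg1, b1_w1, map_one, one_mul] at e1
  -- the degree is at least 5
  have hn5 : 5 ≤ n := by
    by_contra hlt
    push Not at hlt
    have h2 := hmem b0 ker_b0
    rw [mult_b0] at h2
    obtain ⟨z, hz⟩ := h2
    have h3 : θ (frm b0) = 0 := by
      have h4 := hc_of_mem (hn b0) n
      rw [if_pos rfl, hz, hc_mul_of_mem_lt (ι_pow_mem_homog b0 5) n hlt] at h4
      rw [hz, ← h4]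
    rw [h3, map_zero] at e0
    exact pow_ne_zero 4 (frm_ne_zero b0_ne) e0
  have h2 : hc 2 (φ1 (θ (frm b1))) = 0 := by
    rw [der_expand (Module.finBasis K (V3 K ⧸ XB K)) φ1, der_sum_apply, map_sum]
    refine Finset.sum_eq_zero fun i _ => ?_
    rw [Derivation.smul_apply, smul_eq_mul, mul_comm]
    obtain ⟨m, rfl⟩ : ∃ m, n = m + 1 := ⟨n - 1, by omega⟩
    exact hc_mul_of_mem_lt (pd_homog (hn b1) _) 2 (by omega) _
  rw [← e1, hc_of_mem (ι_pow_mem_homog b1 2), if_pos rfl] at h2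
  exact pow_ne_zero 2 (frm_ne_zero b1_ne) h2

end Example2

end Pool.Agent.Lib.MP_63137b_co
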